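import Pool.Agent.Lib.MP_ae9b13_ag.Defs

/-!
# Limits of compact sets with increasing volumes
-/

set_option autoImplicit false

namespace MPae9b13.Haus

open MeasureTheory Filter Topology TopologicalSpace

theorem haus {s : ℕ} (Q : ℕ → Set (Fin s → ℝ)) (hcl : ∀ n, IsClosed (Q n)) (M : ℝ)
    (hb : ∀ n, ∀ t ∈ Q n, ∀ i, 0 ≤ t i ∧ t i ≤ M) (hvol : ∀ n, volume (Q n) < volume (Q (n + 1))) :
    ∃ ψ : ℕ → ℕ, StrictMono ψ ∧ ∃ L : Set (Fin s → ℝ), IsClosed L ∧ 0 < volume L ∧
      (∀ n, ¬ L ⊆ Q (ψ n)) ∧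
      (∀ t ∈ L, ∃ x : ℕ → Fin s → ℝ, (∀ n, x n ∈ Q (ψ n)) ∧ Tendsto x atTop (𝓝 t)) := by
  classical
  set B : Set (Fin s → ℝ) := Set.Icc 0 (fun _ => M) with hB
  have hQB : ∀ n, Q n ⊆ B := fun n t ht => ⟨fun i => (hb n t ht i).1, fun i => (hb n t ht i).2⟩
  have : CompactSpace B := isCompact_iff_compactSpace.mp isCompact_Icc
  have hmono : StrictMono (fun n => volume (Q n)) := strictMono_nat_of_lt_succ hvol
  have hne : ∀ n, (Q (n + 1)).Nonempty := by
    intro n
    rw [Set.nonempty_iff_ne_empty]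
    intro h
    have := hvol n
    rw [h, measure_empty] at this
    exact absurd this (not_lt.mpr zero_le)
  let K : ℕ → NonemptyCompacts B := fun n =>
    ⟨⟨(Subtype.val : B → (Fin s → ℝ)) ⁻¹' Q (n + 1),
      ((hcl (n + 1)).preimage continuous_subtype_val).isCompact⟩, by
      obtain ⟨t, ht⟩ := hne n
      exact ⟨⟨t, hQB _ ht⟩, ht⟩⟩
  obtain ⟨K₀, φ, hφ, hK⟩ := CompactSpace.tendsto_subseq K
  have hmemK : ∀ n (x : B), x ∈ (K n : Set B) ↔ (x : Fin s → ℝ) ∈ Q (n + 1) := fun n x => Iff.rfl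
  have hdist : Tendsto (fun n => Metric.hausdorffDist (K (φ n) : Set B) (K₀ : Set B)) atTop (𝓝 0) := by
    have := tendsto_iff_dist_tendsto_zero.mp hK
    exact this
  have hfin : ∀ n, Metric.hausdorffEDist (K (φ n) : Set B) (K₀ : Set B) ≠ ⊤ := fun n =>
    Metric.hausdorffEDist_ne_top_of_nonempty_of_bounded (K (φ n)).nonempty K₀.nonempty
      (K (φ n)).isCompact.isBounded K₀.isCompact.isBounded
  set L : Set (Fin s → ℝ) := Subtype.val '' (K₀ : Set B) with hL
  have hLc : IsCompact L := K₀.isCompact.image continuous_subtype_val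
  have hLim : ∀ n, volume (Q n) ≤ volume L := by
    intro n
    have h1 := tendsto_measure_cthickening_of_isCompact (μ := volume) hLc
    have h2 : ∀ ε : ℝ, 0 < ε → volume (Q n) ≤ volume (Metric.cthickening ε L) := by
      intro ε hε
      have h3 : ∀ᶠ m in atTop, Metric.hausdorffDist (K (φ m) : Set B) (K₀ : Set B) < ε :=
        hdist.eventually (gt_mem_nhds hε)
      obtain ⟨m, hm1, hm2⟩ := (h3.and (eventually_ge_atTop n)).exists
      have h4 : n ≤ φ m + 1 := (hm2.trans (hφ.id_le m)).trans (Nat.le_succ _)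
      refine (hmono.monotone h4).trans (measure_mono ?_)
      intro t ht
      have h5 : (⟨t, hQB _ ht⟩ : B) ∈ (K (φ m) : Set B) := ht
      obtain ⟨y, hy, hyd⟩ := Metric.exists_dist_lt_of_hausdorffDist_lt h5 hm1 (hfin m)
      refine Metric.mem_cthickening_of_dist_le t y.1 ε L ⟨y, hy, rfl⟩ ?_
      exact hyd.le
    have h6 : Tendsto (fun r : ℝ => volume (Metric.cthickening r L)) (𝓝[>] 0) (𝓝 (volume L)) :=
      h1.mono_left nhdsWithin_le_nhds
    refine ge_of_tendsto h6 ?_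
    filter_upwards [self_mem_nhdsWithin] with ε hε
    exact h2 ε hε
  refine ⟨fun n => φ n + 1, fun a b hab => Nat.add_lt_add_right (hφ hab) 1, L, hLc.isClosed, ?_, ?_, ?_⟩
  · exact lt_of_lt_of_le (lt_of_le_of_lt zero_le (hvol 0)) (hLim 1)
  · intro n hsub
    have h1 := measure_mono (μ := volume) hsub
    exact absurd (lt_of_le_of_lt h1 (hvol (φ n + 1))) (not_lt.mpr (hLim _))
  · rintro t ⟨y, hy, rfl⟩
    have h1 : ∀ n, ∃ x : B, x ∈ (K (φ n) : Set B) ∧
        dist y x ≤ Metric.hausdorffDist (K (φ n) : Set B) (K₀ : Set B) := by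
      intro n
      obtain ⟨x, hx, hxd⟩ := (K (φ n)).isCompact.exists_infDist_eq_dist (K (φ n)).nonempty y
      refine ⟨x, hx, ?_⟩
      rw [← hxd, Metric.hausdorffDist_comm]
      exact Metric.infDist_le_hausdorffDist_of_mem hy (by
        rw [Metric.hausdorffEDist_comm]; exact hfin n)
    choose x hx hxd using h1
    refine ⟨fun n => (x n : Fin s → ℝ), fun n => hx n, ?_⟩
    rw [tendsto_iff_dist_tendsto_zero]
    refine squeeze_zero (fun n => dist_nonneg) (fun n => ?_) hdist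
    rw [dist_comm]
    exact hxd n

end MPae9b13.Haus
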