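import Pool.Agent.Lib.MP_ae9b13_ag.Core3
import Pool.Agent.Lib.MP_ae9b13_ag.Haus

/-!
# Assembly of the compactness argument
-/

set_option autoImplicit false

namespace MPae9b13.Core

open Finset Filter Topology MeasureTheory
open scoped Pointwise

variable {s k r : ℕ}

/-- the region is closed -/
theorem isClosed_C {G : Set ℝ} (hG : ∀ x ∈ G, 0 ≤ x) {κ : Dat s k r} (h : Good G κ) :
    IsClosed {t | t ∈ C κ ∧ ∀ i, 0 ≤ t i} := by
  apply IsSeqClosed.isClosed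
  intro x t hx hxt
  have ht0 : ∀ i, 0 ≤ t i := fun i =>
    ge_of_tendsto' (tendsto_pi_nhds.mp hxt i) fun n => (hx n).2 i
  have hX0 : ∀ j, 0 ≤ X κ.δ κ.D t j := fun j =>
    ge_of_tendsto' (tendsto_X (δ := fun _ => κ.δ) (D := fun _ => κ.D) (fun j => tendsto_const_nhds)
      (fun i j => tendsto_const_nhds) hxt j) fun n => (hx n).1.1 j
  refine ⟨⟨hX0, fun a ha hapos => ?_⟩, ht0⟩
  obtain ⟨w, hw, hval⟩ := limit_step hG (fun _ => κ) (fun _ => h) (fun z m n _ => le_refl _)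
    (fun j => tendsto_const_nhds) (fun i j => tendsto_const_nhds) (fun z => tendsto_const_nhds)
    (fun i z => tendsto_const_nhds) hxt (fun n i => (hx n).2 i) (b := fun _ => a)
    tendsto_const_nhds hapos (fun n _ => (hx n).1.2 a ha hapos)
  obtain ⟨u, hu, -⟩ := (hx 0).1.2 a ha hapos
  refine ⟨fun z => if 0 < Cf κ.ε κ.E t z then w z else u z, fun z => ?_, ?_⟩
  · dsimp only
    split_ifs with hz
    · exact hw z hz 0
    · exact hu z
  · refine hval.trans ?_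
    rw [Val]
    refine sub_le_sub_left (Finset.sum_le_sum fun z _ => ?_) _
    by_cases hz : 0 < Cf κ.ε κ.E t z
    · simp only [if_pos hz]
      exact le_refl _
    · have h5 : Cf κ.ε κ.E t z = 0 :=
        le_antisymm (not_lt.mp hz) (Cf_nonneg hG h ht0 z)
      rw [h5, zero_mul, zero_mul]

/-- the regions considered -/
structure Adm (G : Set ℝ) (d : ℕ) (Q : Set (Fin s → ℝ)) : Prop where
  nonneg : ∀ t ∈ Q, ∀ i, 0 ≤ t i
  sep : ∀ t, (∀ i, 0 ≤ t i) → t ∉ Q →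
    (∃ p₀ ∈ G + G, ∃ p : Fin s → ℝ, (∀ i, p i ∈ G + G) ∧ (∀ x ∈ Q, p₀ + ∑ i, x i * p i ≤ 1) ∧
      1 < p₀ + ∑ i, t i * p i) ∨
    ∃ k ≤ d, ∃ r, ∃ κ : Dat s k r, Good G κ ∧ Q ⊆ C κ ∧ t ∉ C κ
  bdd : ∀ i, (∃ p₀ ∈ G, ∃ p : Fin s → ℝ, (∀ i, p i ∈ G) ∧ p i ≠ 0 ∧
      ∀ x ∈ Q, p₀ + ∑ i, x i * p i ≤ 1) ∨
    ∀ t ∈ Q, ∀ c : ℝ, 0 ≤ c → t + Pi.single i c ∈ Q

theorem Adm.isClosed {G : Set ℝ} (hG : ∀ x ∈ G, 0 ≤ x) {d : ℕ} {Q : Set (Fin s → ℝ)}
    (hQ : Adm G d Q) : IsClosed Q := by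
  apply IsSeqClosed.isClosed
  intro x t hx hxt
  have ht0 : ∀ i, 0 ≤ t i := fun i =>
    ge_of_tendsto' (tendsto_pi_nhds.mp hxt i) fun n => hQ.nonneg _ (hx n) i
  by_contra hcon
  rcases hQ.sep t ht0 hcon with ⟨p₀, -, p, -, h1, h2⟩ | ⟨k, -, r, κ, h1, h2, h3⟩
  · have h3 : Tendsto (fun n => p₀ + ∑ i, x n i * p i) atTop (𝓝 (p₀ + ∑ i, t i * p i)) :=
      tendsto_const_nhds.add (tendsto_finsetSum _ fun i _ =>
        (tendsto_pi_nhds.mp hxt i).mul tendsto_const_nhds)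
    have h4 := le_of_tendsto' h3 fun n => h1 _ (hx n)
    linarith
  · exact h3 ((isClosed_C hG h1).mem_of_tendsto hxt
      (Eventually.of_forall fun n => ⟨h2 (hx n), hQ.nonneg _ (hx n)⟩)).1

/-- a region which is unbounded in a direction has volume zero or infinity -/
theorem volume_zero_of_unbounded {Q : Set (Fin s → ℝ)} (hcl : IsClosed Q)
    (hQ0 : ∀ t ∈ Q, ∀ i, 0 ≤ t i) {i : Fin s}
    (hi : ∀ t ∈ Q, ∀ c : ℝ, 0 ≤ c → t + Pi.single i c ∈ Q) (hfin : volume Q ≠ ⊤) :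
    volume Q = 0 := by
  have h1 : Tendsto (volume ∘ fun n : ℕ => Q ∩ {t | (n : ℝ) ≤ t i}) atTop
      (𝓝 (volume (⋂ n : ℕ, Q ∩ {t | (n : ℝ) ≤ t i}))) := by
    refine tendsto_measure_iInter_atTop (fun n => ?_) ?_ ⟨0, ?_⟩
    · exact (hcl.measurableSet.inter
        (isClosed_le continuous_const (continuous_apply i)).measurableSet).nullMeasurableSet
    · intro m n hmn t ht
      refine ⟨ht.1, ?_⟩
      have h1 : (n : ℝ) ≤ t i := ht.2
      have h2 : (m : ℝ) ≤ n := by exact_mod_cast hmn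
      exact h2.trans h1
    · exact ne_top_of_le_ne_top hfin (measure_mono Set.inter_subset_left)
  have h2 : (⋂ n : ℕ, Q ∩ {t | (n : ℝ) ≤ t i}) = ∅ := by
    rw [Set.eq_empty_iff_forall_notMem]
    intro t ht
    obtain ⟨n, hn⟩ := exists_nat_gt (t i)
    have h3 := (Set.mem_iInter.mp ht n).2
    have h4 : (n : ℝ) ≤ t i := h3
    linarith
  rw [h2, measure_empty] at h1
  have h3 : ∀ n : ℕ, volume Q ≤ volume (Q ∩ {t | (n : ℝ) ≤ t i}) := by
    intro n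
    have h4 : volume ((fun t : Fin s → ℝ => Pi.single i (n : ℝ) + t) ⁻¹' (Q ∩ {t | (n : ℝ) ≤ t i})) =
      volume (Q ∩ {t | (n : ℝ) ≤ t i}) :=
      measure_preimage_add (volume : Measure (Fin s → ℝ)) (Pi.single i (n : ℝ)) _
    rw [← h4]
    refine measure_mono fun t ht => ?_
    refine ⟨?_, ?_⟩
    · have := hi t ht n (by positivity)
      rwa [add_comm] at this
    · change (n : ℝ) ≤ ((Pi.single i (n : ℝ) : Fin s → ℝ) + t) i
      rw [Pi.add_apply, Pi.single_eq_same]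
      linarith [hQ0 t ht i]
  exact le_antisymm (ge_of_tendsto' h1 h3) zero_le

/-- constraints of the first type -/
theorem typeA {G : Set ℝ} (hwf : WellFoundedLT G) (p₀ : ℕ → ℝ) (p : ℕ → Fin s → ℝ)
    (hp₀ : ∀ n, p₀ n ∈ G) (hp : ∀ n i, p n i ∈ G) (Q : ℕ → Set (Fin s → ℝ))
    (hQ : ∀ n, ∀ x ∈ Q n, p₀ n + ∑ i, x i * p n i ≤ 1)
    (hQ0 : ∀ n, ∀ t ∈ Q n, ∀ i, 0 ≤ t i) (L : Set (Fin s → ℝ))
    (hL : ∀ t ∈ L, ∃ x : ℕ → Fin s → ℝ, (∀ n, x n ∈ Q n) ∧ Tendsto x atTop (𝓝 t)) :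
    ∃ n, ∀ t ∈ L, p₀ n + ∑ i, t i * p n i ≤ 1 := by
  have h := (wellQuasiOrdered_le (α := G × (Fin s → G)))
  obtain ⟨g, hg⟩ := h.exists_monotone_subseq (fun n =>
    (⟨p₀ n, hp₀ n⟩, fun i => ⟨p n i, hp n i⟩))
  refine ⟨g 0, fun t ht => ?_⟩
  obtain ⟨x, hx, hxt⟩ := hL t ht
  have hxt' : Tendsto (fun n => x (g n)) atTop (𝓝 t) := hxt.comp g.strictMono.tendsto_atTop
  have h3 : Tendsto (fun n => p₀ (g 0) + ∑ i, x (g n) i * p (g 0) i) atTop
      (𝓝 (p₀ (g 0) + ∑ i, t i * p (g 0) i)) :=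
    tendsto_const_nhds.add (tendsto_finsetSum _ fun i _ =>
      (tendsto_pi_nhds.mp hxt' i).mul tendsto_const_nhds)
  refine le_of_tendsto' h3 fun n => ?_
  refine le_trans ?_ (hQ (g n) _ (hx (g n)))
  have h4 := hg 0 n (Nat.zero_le n)
  exact add_le_add h4.1 (Finset.sum_le_sum fun i _ =>
    mul_le_mul_of_nonneg_left (h4.2 i) (hQ0 _ _ (hx (g n)) i))

/-- positive elements are bounded below -/
theorem exists_gap {G : Set ℝ} (hG : ∀ x ∈ G, 0 ≤ x) (hwf : WellFoundedLT G) :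
    ∃ γ : ℝ, 0 < γ ∧ ∀ x ∈ G, x = 0 ∨ γ ≤ x := by
  by_cases h : ∃ x : G, 0 < (x : ℝ)
  · obtain ⟨m, hm1, hm2⟩ := hwf.wf.has_min {x : G | 0 < (x : ℝ)} h
    refine ⟨m, hm1, fun x hx => ?_⟩
    rcases (hG x hx).eq_or_lt with h0 | h0
    · exact Or.inl h0.symm
    · exact Or.inr (not_lt.mp (hm2 ⟨x, hx⟩ h0))
  · push Not at h
    exact ⟨1, one_pos, fun x hx => Or.inl (le_antisymm (h ⟨x, hx⟩) (hG x hx))⟩

/-- The volumes of admissible regions do not increase indefinitely. -/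
theorem main {G : Set ℝ} (hG : ∀ x ∈ G, 0 ≤ x) (hpwo : G.IsPWO) {d : ℕ}
    (Q : ℕ → Set (Fin s → ℝ)) (hQ : ∀ n, Adm G d (Q n))
    (hvol : ∀ n, volume (Q n) < volume (Q (n + 1))) : False := by
  classical
  have hwf : WellFoundedLT G := ⟨hpwo.isWF⟩
  have hwf2 : WellFoundedLT (G + G : Set ℝ) := ⟨(hpwo.add hpwo).isWF⟩
  obtain ⟨γ, hγ, hγ2⟩ := exists_gap hG hwf
  -- boundedness
  have hbd : ∀ n, ∀ t ∈ Q (n + 1), ∀ i, 0 ≤ t i ∧ t i ≤ 1 / γ := by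
    intro n t ht i
    refine ⟨(hQ _).nonneg t ht i, ?_⟩
    rcases (hQ (n + 1)).bdd i with ⟨p₀, hp₀, p, hp, hpi, h1⟩ | h1
    · have h2 := h1 t ht
      have h3 : γ ≤ p i := (hγ2 _ (hp i)).resolve_left hpi
      have h4 : t i * p i ≤ ∑ i, t i * p i :=
        Finset.single_le_sum (f := fun i => t i * p i)
          (fun i _ => mul_nonneg ((hQ _).nonneg t ht i) (hG _ (hp i))) (Finset.mem_univ i)
      have h5 : t i * γ ≤ t i * p i := mul_le_mul_of_nonneg_left h3 ((hQ _).nonneg t ht i)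
      rw [le_div_iff₀ hγ]
      linarith [hG _ hp₀]
    · exfalso
      have h2 := volume_zero_of_unbounded ((hQ (n + 1)).isClosed hG) (hQ (n + 1)).nonneg h1
        (ne_top_of_lt (hvol (n + 1)))
      have h3 := hvol n
      rw [h2] at h3
      exact not_lt_zero h3
  obtain ⟨ψ, hψ, L, hLcl, hLpos, hLn, hLlim⟩ := Haus.haus (fun n => Q (n + 1))
    (fun n => (hQ (n + 1)).isClosed hG) (1 / γ) hbd (fun n => hvol (n + 1))
  set P : ℕ → Set (Fin s → ℝ) := fun n => Q (ψ n + 1) with hP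
  have hPa : ∀ n, Adm G d (P n) := fun n => hQ _
  have hL0 : ∀ t ∈ L, ∀ i, 0 ≤ t i := by
    intro t ht i
    obtain ⟨x, hx, hxt⟩ := hLlim t ht
    exact ge_of_tendsto' (tendsto_pi_nhds.mp hxt i) fun n => (hPa n).nonneg _ (hx n) i
  -- a point with positive coordinates
  obtain ⟨t₀, ht₀, hpos⟩ : ∃ t ∈ L, ∀ i, 0 < t i := by
    by_contra hcon
    push Not at hcon
    have h1 : L ⊆ ⋃ i : Fin s, {t : Fin s → ℝ | t i = 0} := by
      intro t ht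
      obtain ⟨i, hi⟩ := hcon t ht
      exact Set.mem_iUnion.mpr ⟨i, le_antisymm hi (hL0 t ht i)⟩
    have h2 : volume (⋃ i : Fin s, {t : Fin s → ℝ | t i = 0}) = 0 := by
      rw [measure_iUnion_null_iff]
      intro i
      exact Measure.pi_hyperplane (fun _ : Fin s => (volume : Measure ℝ)) i 0
    exact (measure_mono_null h1 h2 ▸ hLpos).false
  obtain ⟨τ, hτ, hτt⟩ : ∃ τ : ℝ, 0 < τ ∧ ∀ i, τ < t₀ i := by
    rcases isEmpty_or_nonempty (Fin s) with h | h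
    · exact ⟨1, one_pos, fun i => isEmptyElim i⟩
    · obtain ⟨i₀, hi₀⟩ := Finite.exists_min t₀
      exact ⟨t₀ i₀ / 2, by linarith [hpos i₀], fun i => by linarith [hpos i₀, hi₀ i]⟩
  obtain ⟨x₀, hx₀, hx₀t⟩ := hLlim t₀ ht₀
  have hev : ∀ᶠ n in atTop, ∀ i, τ ≤ x₀ n i := by
    rw [eventually_all]
    intro i
    exact ((tendsto_pi_nhds.mp hx₀t i).eventually (lt_mem_nhds (hτt i))).mono fun n hn => hn.le
  -- violated constraints
  set R : ℕ := ⌈(d : ℝ) / (γ * min 1 τ)⌉₊ with hR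
  have hγτ : 0 < γ * min 1 τ := mul_pos hγ (lt_min one_pos hτ)
  have hviol : ∀ᶠ n in atTop, (∃ p₀ ∈ G + G, ∃ p : Fin s → ℝ, (∀ i, p i ∈ G + G) ∧
      (∀ x ∈ P n, p₀ + ∑ i, x i * p i ≤ 1) ∧ ∃ t ∈ L, 1 < p₀ + ∑ i, t i * p i) ∨
      ∃ k ∈ range (d + 1), ∃ r ∈ range (R + 1), ∃ κ : Dat s k r, Good G κ ∧ P n ⊆ C κ ∧
        ¬ L ⊆ C κ := by
    filter_upwards [hev] with n hn
    obtain ⟨t, ht, htn⟩ := Set.not_subset.mp (hLn n)
    rcases (hPa n).sep t (hL0 t ht) htn with ⟨p₀, h1, p, h2, h3, h4⟩ | ⟨k, hk, r, κ, h1, h2, h3⟩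
    · exact Or.inl ⟨p₀, h1, p, h2, h3, t, ht, h4⟩
    · refine Or.inr ⟨k, Finset.mem_range.mpr (by omega), r, Finset.mem_range.mpr ?_, κ, h1, h2,
        fun h => h3 (h ht)⟩
      have h5 := r_bound hG hγ2 hγ hτ h1 hn (h2 (hx₀ n))
      have h6 : (r : ℝ) ≤ (d : ℝ) / (γ * min 1 τ) := by
        rw [le_div_iff₀ hγτ]
        have : (k : ℝ) ≤ d := by exact_mod_cast hk
        linarith
      have h7 : (r : ℝ) ≤ R := h6.trans (Nat.le_ceil _)
      have h8 : r ≤ R := by exact_mod_cast h7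
      omega
  have hfreq := hviol.frequently
  rw [frequently_or_distrib] at hfreq
  rcases hfreq with hfreq | hfreq
  · obtain ⟨φ, hφ, hall⟩ := extraction_of_frequently_atTop hfreq
    choose p₀ hp₀ p hp h1 t ht h2 using hall
    obtain ⟨n, hn⟩ := typeA hwf2 p₀ p hp₀ hp (fun n => P (φ n)) h1
      (fun n => (hPa _).nonneg) L (fun t ht => by
        obtain ⟨x, hx, hxt⟩ := hLlim t ht
        exact ⟨fun n => x (φ n), fun n => hx _, hxt.comp hφ.tendsto_atTop⟩)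
    exact absurd (hn (t n) (ht n)) (not_le.mpr (h2 n))
  · have hex : ∃ k, ∃ r, ∃ᶠ n in atTop, ∃ κ : Dat s k r, Good G κ ∧ P n ⊆ C κ ∧ ¬ L ⊆ C κ := by
      by_contra hcon
      push Not at hcon
      refine hfreq ?_
      have h1 : ∀ᶠ n in atTop, ∀ k ∈ range (d + 1), ∀ r ∈ range (R + 1),
          ¬ ∃ κ : Dat s k r, Good G κ ∧ P n ⊆ C κ ∧ ¬ L ⊆ C κ := by
        rw [eventually_all_finset]
        intro k _
        rw [eventually_all_finset]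
        intro r _
        refine (hcon k r).mono fun n hn => ?_
        rintro ⟨κ, h1, h2, h3⟩
        exact h3 (hn κ h1 h2)
      refine h1.mono fun n hn => ?_
      rintro ⟨k, hk, r, hr, h⟩
      exact hn k hk r hr h
    obtain ⟨k, r, hfr⟩ := hex
    obtain ⟨φ, hφ, hall⟩ := extraction_of_frequently_atTop hfr
    choose κ h1 h2 h3 using hall
    obtain ⟨n, hn⟩ := core hG hwf κ h1 (fun n => P (φ n)) h2 (fun n => (hPa _).nonneg) L
      (fun t ht => by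
        obtain ⟨x, hx, hxt⟩ := hLlim t ht
        exact ⟨fun n => x (φ n), fun n => hx _, hxt.comp hφ.tendsto_atTop⟩) ht₀ hpos
    exact h3 n hn

end MPae9b13.Core
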