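import Pool.Agent.Lib.MP_ae9b13_ag.Defs

/-!
# Cones, lattices and orders
-/

set_option autoImplicit false

namespace MPae9b13

open Finset

variable {d : ℕ}

/-- Carathéodory's theorem for cones -/
theorem caratheodory {σ : Finset (Fin d → ℤ)} {x : Fin d → ℝ} (hx : x ∈ cone σ) :
    ∃ J ⊆ σ, LinearIndepOn ℝ toR (J : Set (Fin d → ℤ)) ∧ ∃ a : (Fin d → ℤ) → ℝ,
      (∀ v ∈ J, 0 < a v) ∧ x = ∑ v ∈ J, a v • toR v := by
  classical
  -- a set of minimal cardinality
  have hex : ∃ m : ℕ, ∃ J ⊆ σ, J.card = m ∧ x ∈ cone J := ⟨_, σ, Subset.refl _, rfl, hx⟩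
  obtain ⟨J, hJσ, hJm, a, ha, hxa⟩ := Nat.find_spec hex
  have hmin : ∀ J' ⊆ σ, x ∈ cone J' → Nat.find hex ≤ J'.card := fun J' h1 h2 =>
    Nat.find_min' hex ⟨J', h1, rfl, h2⟩
  have hpos : ∀ v ∈ J, 0 < a v := by
    intro v hv
    refine lt_of_le_of_ne (ha v hv) fun h0 => ?_
    have h1 : x ∈ cone (J.erase v) := by
      refine ⟨a, fun w hw => ha w (Finset.mem_of_mem_erase hw), ?_⟩
      rw [hxa, ← Finset.add_sum_erase J _ hv, ← h0, zero_smul, zero_add]
    have h2 := hmin _ ((Finset.erase_subset _ _).trans hJσ) h1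
    rw [← hJm] at h2
    have h3 := Finset.card_erase_lt_of_mem hv
    omega
  refine ⟨J, hJσ, ?_, a, hpos, hxa⟩
  by_contra hli
  rw [linearIndepOn_finset_iff] at hli
  push Not at hli
  obtain ⟨b, hb0, v₀, hv₀, hbv₀⟩ := hli
  -- wlog some coefficient is positive
  obtain ⟨b, hb0, v₁, hv₁, hbv₁⟩ : ∃ b : (Fin d → ℤ) → ℝ, ∑ i ∈ J, b i • toR i = 0 ∧
      ∃ v ∈ J, 0 < b v := by
    rcases lt_or_gt_of_ne hbv₀ with h | h
    · refine ⟨fun v => - b v, ?_, v₀, hv₀, by simpa using h⟩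
      simp only [neg_smul, Finset.sum_neg_distrib, hb0, neg_zero]
    · exact ⟨b, hb0, v₀, hv₀, h⟩
  obtain ⟨v₂, hv₂, hmin₂⟩ := Finset.exists_min_image (J.filter fun v => 0 < b v)
    (fun v => a v / b v) ⟨v₁, Finset.mem_filter.mpr ⟨hv₁, hbv₁⟩⟩
  obtain ⟨hv₂J, hbv₂⟩ := Finset.mem_filter.mp hv₂
  set c : (Fin d → ℤ) → ℝ := fun v => a v - a v₂ / b v₂ * b v with hc
  have hc0 : ∀ v ∈ J, 0 ≤ c v := by
    intro v hv
    rw [hc]
    by_cases hbv : 0 < b v
    · have h1 := hmin₂ v (Finset.mem_filter.mpr ⟨hv, hbv⟩)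
      have h2 : a v₂ / b v₂ * b v ≤ a v / b v * b v := mul_le_mul_of_nonneg_right h1 hbv.le
      rw [div_mul_cancel₀ _ hbv.ne'] at h2
      simp only; linarith
    · have h1 : a v₂ / b v₂ * b v ≤ 0 :=
        mul_nonpos_of_nonneg_of_nonpos (div_nonneg (ha v₂ hv₂J) hbv₂.le) (not_lt.mp hbv)
      simp only; linarith [ha v hv]
  have hcx : x = ∑ v ∈ J, c v • toR v := by
    rw [hc]
    simp only [sub_smul, Finset.sum_sub_distrib, mul_smul]
    rw [← Finset.smul_sum, hb0, smul_zero, sub_zero, hxa]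
  have hcv₂ : c v₂ = 0 := by
    rw [hc]; simp only
    rw [div_mul_cancel₀ _ hbv₂.ne', sub_self]
  have h1 : x ∈ cone (J.erase v₂) := by
    refine ⟨c, fun w hw => hc0 w (Finset.mem_of_mem_erase hw), ?_⟩
    rw [hcx, ← Finset.add_sum_erase J _ hv₂J, hcv₂, zero_smul, zero_add]
  have h2 := hmin _ ((Finset.erase_subset _ _).trans hJσ) h1
  rw [← hJm] at h2
  have h3 := Finset.card_erase_lt_of_mem hv₂J
  omega

theorem toR_dot (u w : Fin d → ℤ) : toR u ⬝ᵥ toR w = ((u ⬝ᵥ w : ℤ) : ℝ) := by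
  simp only [dotProduct, toR, Int.cast_sum, Int.cast_mul]

theorem toR_injective : Function.Injective (toR (d := d)) := by
  intro u v h
  funext i
  have := congrFun h i
  simpa [toR] using this

/-- the lattice spanned has finite exponent -/
theorem exponent {k : ℕ} (v : Fin k → Fin d → ℤ) (hv : LinearIndependent ℝ fun j => toR (v j)) :
    ∃ m : ℕ, 0 < m ∧ ∀ a : Fin k → ℝ, (∃ w : Fin d → ℤ, ∑ j, a j • toR (v j) = toR w) →
      ∃ z : Fin k → ℤ, (m : ℝ) • a = toR z := by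
  classical
  -- the Gram matrix
  set A : Matrix (Fin k) (Fin k) ℤ := Matrix.of fun i j => v i ⬝ᵥ v j with hA
  set AR : Matrix (Fin k) (Fin k) ℝ := A.map (Int.cast : ℤ → ℝ) with hAR
  have hARij : ∀ i j, AR i j = toR (v i) ⬝ᵥ toR (v j) := by
    intro i j
    rw [toR_dot, hAR, hA]; rfl
  have hdet : AR.det ≠ 0 := by
    intro h0
    obtain ⟨x, hx, hx0⟩ := Matrix.exists_mulVec_eq_zero_iff.mpr h0
    set y : Fin d → ℝ := ∑ j, x j • toR (v j) with hy
    have h1 : y ⬝ᵥ y = 0 := by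
      have h2 : ∀ i, toR (v i) ⬝ᵥ y = 0 := by
        intro i
        have h3 : (AR.mulVec x) i = 0 := by rw [hx0]; rfl
        rw [hy, dotProduct_sum]
        rw [Matrix.mulVec, dotProduct] at h3
        rw [← h3]
        refine Finset.sum_congr rfl fun j _ => ?_
        rw [hARij, dotProduct_smul, smul_eq_mul, mul_comm]
      have h4 : y ⬝ᵥ y = ∑ j, x j * (toR (v j) ⬝ᵥ y) := by
        conv_lhs => rw [hy]
        rw [sum_dotProduct]
        refine Finset.sum_congr rfl fun j _ => ?_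
        rw [smul_dotProduct, smul_eq_mul]
      rw [h4]
      exact Finset.sum_eq_zero fun j _ => by rw [h2 j, mul_zero]
    have h5 : y = 0 := dotProduct_self_eq_zero.mp h1
    have h6 := Fintype.linearIndependent_iff.mp hv x h5
    exact hx (funext h6)
  have hdetZ : A.det ≠ 0 := by
    intro h0
    apply hdet
    rw [hAR]
    have := Int.cast_det (R := ℝ) A
    rw [h0] at this
    simpa using this.symm
  refine ⟨A.det.natAbs, Int.natAbs_pos.mpr hdetZ, ?_⟩
  rintro a ⟨w, hw⟩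
  -- the Gram matrix times `a` is integral
  set g : Fin k → ℤ := fun i => v i ⬝ᵥ w with hg
  have h1 : AR.mulVec a = toR g := by
    funext i
    rw [Matrix.mulVec, dotProduct]
    have h2 : toR g i = toR (v i) ⬝ᵥ toR w := by
      rw [toR_dot]; rfl
    rw [h2, ← hw, dotProduct_sum]
    refine Finset.sum_congr rfl fun j _ => ?_
    rw [hARij, dotProduct_smul, smul_eq_mul, mul_comm]
  have h2 : (A.det : ℝ) • a = toR (A.adjugate.mulVec g) := by
    have h3 : AR.adjugate.mulVec (AR.mulVec a) = AR.det • a := by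
      rw [Matrix.mulVec_mulVec, Matrix.adjugate_mul, Matrix.smul_mulVec, Matrix.one_mulVec]
    have h4 : AR.det = (A.det : ℝ) := by
      rw [hAR]
      exact (Int.cast_det (R := ℝ) A).symm
    have h5 : AR.adjugate = (A.adjugate).map (Int.cast : ℤ → ℝ) := by
      have := RingHom.map_adjugate (Int.castRingHom ℝ) A
      exact this.symm
    rw [← h4, ← h3, h1, h5]
    funext i
    simp only [Matrix.mulVec, dotProduct, toR, Matrix.map_apply, Int.cast_sum, Int.cast_mul]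
  rcases Int.natAbs_eq A.det with h | h
  · refine ⟨A.adjugate.mulVec g, ?_⟩
    rw [← h2, h]
    simp
  · refine ⟨- A.adjugate.mulVec g, ?_⟩
    have h3 : toR (- A.adjugate.mulVec g) = - toR (A.adjugate.mulVec g) := by
      funext i; simp [toR]
    have h4 : ((A.det.natAbs : ℕ) : ℝ) = - (A.det : ℝ) := by
      rw [h]; simp
    rw [h3, ← h2, h4, neg_smul]

/-- a nonzero integer vector is a multiple of a primitive one -/
theorem exists_primitive {w : Fin d → ℤ} (hw : w ≠ 0) :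
    ∃ m : ℤ, 0 < m ∧ ∃ w' : Fin d → ℤ, Primitive w' ∧ w = m • w' := by
  have hne : (Finset.univ : Finset (Fin d)).Nonempty := by
    obtain ⟨j, -⟩ := Function.ne_iff.mp hw
    exact ⟨j, Finset.mem_univ j⟩
  obtain ⟨g, hg1, hg2⟩ := Finset.extract_gcd w hne
  refine ⟨Finset.univ.gcd w, ?_, g, ?_, ?_⟩
  · have h1 : Finset.univ.gcd w ≠ 0 := by
      intro h0
      apply hw
      funext i
      exact Finset.gcd_eq_zero_iff.mp h0 i (Finset.mem_univ i)
    have h2 : 0 ≤ Finset.univ.gcd w :=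
      Int.nonneg_of_normalize_eq_self Finset.normalize_gcd
    omega
  · intro m hm
    have h1 : m ∣ Finset.univ.gcd g := Finset.dvd_gcd fun i _ => hm i
    rw [hg2] at h1
    exact isUnit_of_dvd_one h1
  · funext i
    exact hg1 i (Finset.mem_univ i)

theorem ord_le {U : Finset (Fin d → ℤ)} {u : Fin d → ℤ} (hu : u ∈ U) (w : Fin d → ℤ) :
    ord U w ≤ u ⬝ᵥ w :=
  ciInf_le (Set.finite_range fun u : U => (u : Fin d → ℤ) ⬝ᵥ w).bddBelow (⟨u, hu⟩ : U)

theorem exists_ord {U : Finset (Fin d → ℤ)} (hU : U.Nonempty) (w : Fin d → ℤ) :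
    ∃ u ∈ U, u ⬝ᵥ w = ord U w := by
  have : Nonempty U := hU.to_subtype
  obtain ⟨u, hu⟩ := exists_eq_ciInf_of_finite (f := fun u : U => (u : Fin d → ℤ) ⬝ᵥ w)
  exact ⟨u, u.2, hu⟩

theorem ord_smul {U : Finset (Fin d → ℤ)} (hU : U.Nonempty) {m : ℤ} (hm : 0 < m) (w : Fin d → ℤ) :
    ord U (m • w) = m * ord U w := by
  apply le_antisymm
  · obtain ⟨u, hu, h⟩ := exists_ord hU w
    have := ord_le hu (m • w)
    rw [dotProduct_smul, h, smul_eq_mul] at this
    exact this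
  · obtain ⟨u, hu, h⟩ := exists_ord hU (m • w)
    rw [← h, dotProduct_smul, smul_eq_mul]
    exact mul_le_mul_of_nonneg_left (ord_le hu w) hm.le

end MPae9b13
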