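import Pool.Agent.Lib.MP_ae9b13_ag.Defs

/-!
# Upper sets of `ℕ^k` are well-quasi-ordered
-/

set_option autoImplicit false

namespace MPae9b13.Extract

open Finset

theorem sublist_index {α : Type*} {r : α → α → Prop} {l₁ l₂ : List α}
    (h : List.SublistForall₂ r l₁ l₂) :
    ∀ i, (hi : i < l₁.length) → ∃ j, ∃ hj : j < l₂.length, i ≤ j ∧ r l₁[i] l₂[j] := by
  induction h with
  | nil => intro i hi; simp at hi
  | cons hab _ ih =>
    intro i hi
    cases i with
    | zero => exact ⟨0, by simp, le_refl _, by simpa using hab⟩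
    | succ i =>
      obtain ⟨j, hj, hij, hr⟩ := ih i (by simpa using hi)
      exact ⟨j + 1, by simpa using hj, by omega, by simpa using hr⟩
  | cons_right _ ih =>
    intro i hi
    obtain ⟨j, hj, hij, hr⟩ := ih i hi
    exact ⟨j + 1, by simpa using hj, by omega, by simpa using hr⟩

/-- an antitone sequence in a well-quasi-order is eventually constant -/
theorem antitone_stable {α : Type*} [PartialOrder α] (h : WellQuasiOrdered (fun a b : α => a ≤ b))
    (f : ℕ → α) (hf : Antitone f) : ∃ n, ∀ m, n ≤ m → f m = f n := by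
  by_contra hcon
  push Not at hcon
  have hw : WellFounded (fun a b : α => a < b) := by
    have := WellQuasiOrdered.wellFounded h
    refine Subrelation.wf ?_ this
    intro a b hab
    exact ⟨hab.le, hab.not_ge⟩
  have hmin := hw.has_min (Set.range f) ⟨f 0, 0, rfl⟩
  obtain ⟨x, ⟨n, rfl⟩, hx⟩ := hmin
  obtain ⟨m, hm, hne⟩ := hcon n
  exact hx (f m) ⟨m, rfl⟩ (lt_of_le_of_ne (hf hm) hne)

/-- the slice of an upper set at first coordinate `h` -/
def slice {k : ℕ} (V : UpperSet (Fin (k + 1) → ℕ)) (h : ℕ) : UpperSet (Fin k → ℕ) where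
  carrier := {x | (Fin.cons h x : Fin (k + 1) → ℕ) ∈ V}
  upper' := by
    intro x y hxy hx
    refine V.upper ?_ hx
    intro i
    refine Fin.cases ?_ (fun j => ?_) i
    · simp
    · simpa using hxy j

theorem mem_slice {k : ℕ} {V : UpperSet (Fin (k + 1) → ℕ)} {h : ℕ} {x : Fin k → ℕ} :
    x ∈ slice V h ↔ (Fin.cons h x : Fin (k + 1) → ℕ) ∈ V := Iff.rfl

theorem slice_antitone {k : ℕ} (V : UpperSet (Fin (k + 1) → ℕ)) : Antitone (slice V) := by
  intro a b hab x hx
  change (Fin.cons b x : Fin (k + 1) → ℕ) ∈ V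
  have hx' : (Fin.cons a x : Fin (k + 1) → ℕ) ∈ V := hx
  refine V.upper ?_ hx'
  intro i
  refine Fin.cases ?_ (fun j => ?_) i
  · simpa using hab
  · simp

theorem le_of_slice {k : ℕ} {V W : UpperSet (Fin (k + 1) → ℕ)} (h : ∀ i, slice V i ≤ slice W i) :
    V ≤ W := by
  intro x hx
  have h1 : (Fin.cons (x 0) (Fin.tail x) : Fin (k + 1) → ℕ) = x := Fin.cons_self_tail x
  have h2 : Fin.tail x ∈ slice W (x 0) := by
    rw [mem_slice, h1]; exact hx
  have h3 : Fin.tail x ∈ slice V (x 0) := h (x 0) h2
  rw [mem_slice, h1] at h3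
  exact h3

/-- Upper sets of `ℕ^k` are well-quasi-ordered under reverse inclusion. -/
theorem upperSet_wqo (k : ℕ) : WellQuasiOrdered (fun U V : UpperSet (Fin k → ℕ) => U ≤ V) := by
  induction k with
  | zero =>
    have : Finite (UpperSet (Fin 0 → ℕ)) := by
      have : Finite (Fin 0 → ℕ) := inferInstance
      exact Finite.of_injective (fun V : UpperSet (Fin 0 → ℕ) => (V : Set (Fin 0 → ℕ)))
        (fun _ _ h => SetLike.coe_injective h)
    exact Finite.wellQuasiOrdered _
  | succ k ih =>
    have hst : ∀ V : UpperSet (Fin (k + 1) → ℕ), ∃ n, ∀ m, n ≤ m → slice V m = slice V n :=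
      fun V => antitone_stable ih (slice V) (slice_antitone V)
    choose ht hht using hst
    set L : UpperSet (Fin (k + 1) → ℕ) → List (UpperSet (Fin k → ℕ)) :=
      fun V => (List.range (ht V + 1)).map (slice V) with hL
    have hHig := Set.PartiallyWellOrderedOn.partiallyWellOrderedOn_sublistForall₂
      (fun U V : UpperSet (Fin k → ℕ) => U ≤ V) (s := Set.univ)
      (Set.partiallyWellOrderedOn_of_wellQuasiOrdered ih _)
    have i1 : Std.Refl (fun U V : UpperSet (Fin k → ℕ) => U ≤ V) := ⟨fun _ => le_refl _⟩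
    have i2 : IsTrans (UpperSet (Fin k → ℕ)) (fun U V => U ≤ V) := ⟨fun _ _ _ => le_trans⟩
    have i3 : IsPreorder (List (UpperSet (Fin k → ℕ))) (List.SublistForall₂ fun U V => U ≤ V) :=
      { refl := (List.SublistForall₂.is_refl).refl, trans := (List.SublistForall₂.is_trans).trans }
    intro f
    obtain ⟨g, hg⟩ := Set.PartiallyWellOrderedOn.exists_monotone_subseq hHig
      (f := fun n => L (f n)) (fun n x _ => Set.mem_univ x)
    obtain ⟨i, j, hij, hle⟩ := ih (fun n => slice (f (g n)) (ht (f (g n))))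
    refine ⟨g i, g j, g.strictMono hij, le_of_slice fun h => ?_⟩
    by_cases hh : h ≤ ht (f (g i))
    · have hlen : h < (L (f (g i))).length := by
        rw [hL]; simp only [List.length_map, List.length_range]; omega
      obtain ⟨m, hm, hhm, hr⟩ := sublist_index (hg i j hij.le) h hlen
      have e1 : (L (f (g i)))[h] = slice (f (g i)) h := by simp [hL]
      have e2 : (L (f (g j)))[m] = slice (f (g j)) m := by simp [hL]
      have hr' : slice (f (g i)) h ≤ slice (f (g j)) m := by
        rw [← e1, ← e2]; exact hr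
      exact hr'.trans (slice_antitone _ hhm)
    · push Not at hh
      rw [hht _ h hh.le]
      refine hle.trans ?_
      rcases le_total h (ht (f (g j))) with h1 | h1
      · exact slice_antitone _ h1
      · rw [hht _ h h1]

end MPae9b13.Extract
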