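import Pool.Agent.Lib.MP_ae9b13_ag.Lat
import Pool.Agent.Lib.MP_ae9b13_ag.Extract

/-!
# The compactness argument
-/

set_option autoImplicit false

namespace MPae9b13.Core

open Finset Filter Topology

/-- local data: a simplicial cone with `k` rays, the lattice in the coordinates of the rays, and
`r` functions `min_{u ∈ V} u · a` -/
structure Dat (s k r : ℕ) where
  /-- coefficients of the boundary at the rays -/
  δ : Fin k → ℝ
  /-- coefficients of the divisors at the rays -/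
  D : Fin s → Fin k → ℝ
  /-- the lattice -/
  N : AddSubgroup (Fin k → ℝ)
  /-- coefficients of the boundary at the other components -/
  ε : Fin r → ℝ
  /-- coefficients of the divisors at the other components -/
  E : Fin s → Fin r → ℝ
  /-- exponents -/
  V : Fin r → UpperSet (Fin k → ℕ)

variable {s k r : ℕ}

/-- one minus the coefficient -/
def X (δ : Fin k → ℝ) (D : Fin s → Fin k → ℝ) (t : Fin s → ℝ) (j : Fin k) : ℝ :=
  1 - δ j - ∑ i, t i * D i j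

/-- the coefficient -/
def Cf (ε : Fin r → ℝ) (E : Fin s → Fin r → ℝ) (t : Fin s → ℝ) (z : Fin r) : ℝ :=
  ε z + ∑ i, t i * E i z

/-- the value of the log discrepancy for the choice `u` of exponents -/
def Val (κ : Dat s k r) (t : Fin s → ℝ) (a : Fin k → ℝ) (u : Fin r → Fin k → ℕ) : ℝ :=
  ∑ j, a j * X κ.δ κ.D t j - ∑ z, Cf κ.ε κ.E t z * ∑ j, (u z j : ℝ) * a j

/-- the log discrepancy at `a` is at least one -/
def Sat (κ : Dat s k r) (t : Fin s → ℝ) (a : Fin k → ℝ) : Prop :=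
  ∃ u : Fin r → Fin k → ℕ, (∀ z, u z ∈ κ.V z) ∧ 1 ≤ Val κ t a u

/-- the region -/
def C (κ : Dat s k r) : Set (Fin s → ℝ) :=
  {t | (∀ j, 0 ≤ X κ.δ κ.D t j) ∧ ∀ a ∈ κ.N, (∀ j, 0 < a j) → Sat κ t a}

/-- admissible data -/
structure Good (G : Set ℝ) (κ : Dat s k r) : Prop where
  δ_mem : ∀ j, κ.δ j ∈ G
  D_mem : ∀ i j, κ.D i j ∈ G
  ε_mem : ∀ z, κ.ε z ∈ G
  E_mem : ∀ i z, κ.E i z ∈ G
  Z_mem : ∀ z : Fin k → ℤ, toR z ∈ κ.N
  fin : ∃ m : ℕ, 0 < m ∧ ∀ a ∈ κ.N, ∃ z : Fin k → ℤ, (m : ℝ) • a = toR z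
  V_ne : ∀ z, (0 : Fin k → ℕ) ∉ κ.V z
  nz : ∀ z, κ.ε z ≠ 0 ∨ ∃ i, κ.E i z ≠ 0

theorem Cf_nonneg {G : Set ℝ} (hG : ∀ x ∈ G, 0 ≤ x) {κ : Dat s k r} (h : Good G κ)
    {t : Fin s → ℝ} (ht : ∀ i, 0 ≤ t i) (z : Fin r) : 0 ≤ Cf κ.ε κ.E t z :=
  add_nonneg (hG _ (h.ε_mem z)) (Finset.sum_nonneg fun i _ => mul_nonneg (ht i) (hG _ (h.E_mem i z)))

theorem X_le {G : Set ℝ} (hG : ∀ x ∈ G, 0 ≤ x) {κ : Dat s k r} (h : Good G κ)
    {t : Fin s → ℝ} (ht : ∀ i, 0 ≤ t i) (j : Fin k) : X κ.δ κ.D t j ≤ 1 := by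
  have h1 := hG _ (h.δ_mem j)
  have h2 : 0 ≤ ∑ i, t i * κ.D i j :=
    Finset.sum_nonneg fun i _ => mul_nonneg (ht i) (hG _ (h.D_mem i j))
  rw [X]; linarith

theorem Cf_pos {G : Set ℝ} (hG : ∀ x ∈ G, 0 ≤ x) {γ τ : ℝ} (hγ2 : ∀ x ∈ G, x = 0 ∨ γ ≤ x)
    (hγ : 0 < γ) (hτ : 0 < τ) {κ : Dat s k r} (h : Good G κ)
    {t : Fin s → ℝ} (ht : ∀ i, τ ≤ t i) (z : Fin r) : γ * min 1 τ ≤ Cf κ.ε κ.E t z := by
  have ht0 : ∀ i, 0 ≤ t i := fun i => hτ.le.trans (ht i)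
  have h3 : ∀ i, 0 ≤ t i * κ.E i z := fun i => mul_nonneg (ht0 i) (hG _ (h.E_mem i z))
  rcases h.nz z with h1 | ⟨i, hi⟩
  · have h2 : γ ≤ κ.ε z := (hγ2 _ (h.ε_mem z)).resolve_left h1
    have h4 : 0 ≤ ∑ i, t i * κ.E i z := Finset.sum_nonneg fun i _ => h3 i
    have h5 : γ * min 1 τ ≤ γ * 1 := mul_le_mul_of_nonneg_left (min_le_left _ _) hγ.le
    rw [Cf]; linarith
  · have h2 : γ ≤ κ.E i z := (hγ2 _ (h.E_mem i z)).resolve_left hi
    have h4 : t i * κ.E i z ≤ ∑ i, t i * κ.E i z :=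
      Finset.single_le_sum (fun i _ => h3 i) (Finset.mem_univ i)
    have h5 : γ * min 1 τ ≤ τ * γ := by
      rw [mul_comm]
      exact mul_le_mul_of_nonneg_right (min_le_right _ _) hγ.le
    have h6 : τ * γ ≤ t i * κ.E i z := mul_le_mul (ht i) h2 hγ.le (ht0 i)
    have h7 := hG _ (h.ε_mem z)
    rw [Cf]; linarith

/-- a vector of naturals which is nonzero has sum at least one -/
theorem one_le_sum {u : Fin k → ℕ} (hu : u ≠ 0) : (1 : ℝ) ≤ ∑ j, (u j : ℝ) := by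
  obtain ⟨j, hj⟩ := Function.ne_iff.mp hu
  have h1 : 1 ≤ u j := Nat.one_le_iff_ne_zero.mpr hj
  calc (1 : ℝ) ≤ u j := by exact_mod_cast h1
    _ ≤ ∑ j, (u j : ℝ) := Finset.single_le_sum (f := fun j => (u j : ℝ)) (fun i _ => by positivity)
        (Finset.mem_univ j)

/-- the sum of the coefficients is bounded -/
theorem sum_Cf_le {G : Set ℝ} (hG : ∀ x ∈ G, 0 ≤ x) {κ : Dat s k r} (h : Good G κ)
    {t : Fin s → ℝ} (ht : ∀ i, 0 ≤ t i) (hC : t ∈ C κ) : ∑ z, Cf κ.ε κ.E t z ≤ k := by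
  have h1 : (fun _ : Fin k => (1 : ℝ)) ∈ κ.N := by
    have := h.Z_mem (fun _ => 1)
    have e1 : toR (fun _ : Fin k => (1 : ℤ)) = fun _ => (1 : ℝ) := by
      funext j; simp [toR]
    rwa [e1] at this
  obtain ⟨u, hu, hval⟩ := hC.2 _ h1 (fun j => one_pos)
  rw [Val] at hval
  simp only [one_mul, mul_one] at hval
  have h2 : ∑ j, X κ.δ κ.D t j ≤ ∑ _j : Fin k, (1 : ℝ) :=
    Finset.sum_le_sum fun j _ => X_le hG h ht j
  rw [Finset.sum_const, Finset.card_univ, Fintype.card_fin, nsmul_eq_mul, mul_one] at h2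
  have h3 : ∑ z, Cf κ.ε κ.E t z ≤ ∑ z, Cf κ.ε κ.E t z * ∑ j, (u z j : ℝ) := by
    refine Finset.sum_le_sum fun z _ => ?_
    have hne : u z ≠ 0 := fun h0 => h.V_ne z (h0 ▸ hu z)
    exact le_mul_of_one_le_right (Cf_nonneg hG h ht z) (one_le_sum hne)
  linarith

/-- the number of other components is bounded -/
theorem r_bound {G : Set ℝ} (hG : ∀ x ∈ G, 0 ≤ x) {γ τ : ℝ} (hγ2 : ∀ x ∈ G, x = 0 ∨ γ ≤ x)
    (hγ : 0 < γ) (hτ : 0 < τ) {κ : Dat s k r} (h : Good G κ)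
    {t : Fin s → ℝ} (ht : ∀ i, τ ≤ t i) (hC : t ∈ C κ) : (r : ℝ) * (γ * min 1 τ) ≤ k := by
  have h1 := sum_Cf_le hG h (fun i => hτ.le.trans (ht i)) hC
  have h2 : ∑ _z : Fin r, (γ * min 1 τ) ≤ ∑ z, Cf κ.ε κ.E t z :=
    Finset.sum_le_sum fun z _ => Cf_pos hG hγ2 hγ hτ h ht z
  rw [Finset.sum_const, Finset.card_univ, Fintype.card_fin, nsmul_eq_mul] at h2
  linarith

/-- all coefficients are bounded -/
theorem coef_bound {G : Set ℝ} (hG : ∀ x ∈ G, 0 ≤ x) {τ : ℝ}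
    (hτ : 0 < τ) {κ : Dat s k r} (h : Good G κ)
    {t : Fin s → ℝ} (ht : ∀ i, τ ≤ t i) (hC : t ∈ C κ) :
    (∀ j, κ.δ j ≤ 1) ∧ (∀ i j, κ.D i j ≤ 1 / τ) ∧ (∀ z, κ.ε z ≤ k) ∧ (∀ i z, κ.E i z ≤ k / τ) := by
  have ht0 : ∀ i, 0 ≤ t i := fun i => hτ.le.trans (ht i)
  have h1 := sum_Cf_le hG h ht0 hC
  have h2 : ∀ z, Cf κ.ε κ.E t z ≤ k := fun z =>
    (Finset.single_le_sum (fun z _ => Cf_nonneg hG h ht0 z) (Finset.mem_univ z)).trans h1
  have hD : ∀ j, ∀ i, t i * κ.D i j ≤ ∑ i, t i * κ.D i j := fun j i =>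
    Finset.single_le_sum (f := fun i => t i * κ.D i j)
      (fun i _ => mul_nonneg (ht0 i) (hG _ (h.D_mem i j))) (Finset.mem_univ i)
  have hE : ∀ z, ∀ i, t i * κ.E i z ≤ ∑ i, t i * κ.E i z := fun z i =>
    Finset.single_le_sum (f := fun i => t i * κ.E i z)
      (fun i _ => mul_nonneg (ht0 i) (hG _ (h.E_mem i z))) (Finset.mem_univ i)
  have hD0 : ∀ j, 0 ≤ ∑ i, t i * κ.D i j := fun j =>
    Finset.sum_nonneg fun i _ => mul_nonneg (ht0 i) (hG _ (h.D_mem i j))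
  have hE0 : ∀ z, 0 ≤ ∑ i, t i * κ.E i z := fun z =>
    Finset.sum_nonneg fun i _ => mul_nonneg (ht0 i) (hG _ (h.E_mem i z))
  refine ⟨fun j => ?_, fun i j => ?_, fun z => ?_, fun i z => ?_⟩
  · have := hC.1 j
    rw [X] at this
    linarith [hD0 j]
  · rw [le_div_iff₀ hτ]
    have := hC.1 j
    rw [X] at this
    have h3 := hG _ (h.δ_mem j)
    have h4 : κ.D i j * τ ≤ t i * κ.D i j := by
      rw [mul_comm]
      exact mul_le_mul_of_nonneg_right (ht i) (hG _ (h.D_mem i j))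
    linarith [hD j i]
  · have := h2 z
    rw [Cf] at this
    linarith [hE0 z]
  · rw [le_div_iff₀ hτ]
    have := h2 z
    rw [Cf] at this
    have h3 := hG _ (h.ε_mem z)
    have h4 : κ.E i z * τ ≤ t i * κ.E i z := by
      rw [mul_comm]
      exact mul_le_mul_of_nonneg_right (ht i) (hG _ (h.E_mem i z))
    linarith [hE z i]

theorem tendsto_X {δ : ℕ → Fin k → ℝ} {D : ℕ → Fin s → Fin k → ℝ} {δ' : Fin k → ℝ}
    {D' : Fin s → Fin k → ℝ} (hδ : ∀ j, Tendsto (fun n => δ n j) atTop (𝓝 (δ' j)))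
    (hD : ∀ i j, Tendsto (fun n => D n i j) atTop (𝓝 (D' i j))) {x : ℕ → Fin s → ℝ} {t : Fin s → ℝ}
    (hx : Tendsto x atTop (𝓝 t)) (j : Fin k) :
    Tendsto (fun n => X (δ n) (D n) (x n) j) atTop (𝓝 (X δ' D' t j)) := by
  simp only [X]
  refine (tendsto_const_nhds.sub (hδ j)).sub (tendsto_finsetSum _ fun i _ => ?_)
  exact (tendsto_pi_nhds.mp hx i).mul (hD i j)

theorem tendsto_Cf {ε : ℕ → Fin r → ℝ} {E : ℕ → Fin s → Fin r → ℝ} {ε' : Fin r → ℝ}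
    {E' : Fin s → Fin r → ℝ} (hε : ∀ z, Tendsto (fun n => ε n z) atTop (𝓝 (ε' z)))
    (hE : ∀ i z, Tendsto (fun n => E n i z) atTop (𝓝 (E' i z))) {x : ℕ → Fin s → ℝ} {t : Fin s → ℝ}
    (hx : Tendsto x atTop (𝓝 t)) (z : Fin r) :
    Tendsto (fun n => Cf (ε n) (E n) (x n) z) atTop (𝓝 (Cf ε' E' t z)) := by
  simp only [Cf]
  refine (hε z).add (tendsto_finsetSum _ fun i _ => ?_)
  exact (tendsto_pi_nhds.mp hx i).mul (hE i z)

end MPae9b13.Core
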