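import Pool.Agent.Lib.MP_ae9b13_ag.Core

/-!
# The compactness argument, main step
-/

set_option autoImplicit false

namespace MPae9b13.Core

open Finset Filter Topology

variable {s k r : ℕ}

/-- points of sets approaching `a` -/
theorem exists_seq {α : Type*} [PseudoMetricSpace α] (S : ℕ → Set α) (hS : ∀ n, (S n).Nonempty)
    (a : α) (h : ∀ ε : ℝ, 0 < ε → ∀ᶠ n in atTop, ∃ b ∈ S n, dist b a < ε) :
    ∃ b : ℕ → α, (∀ n, b n ∈ S n) ∧ Tendsto b atTop (𝓝 a) := by
  have h1 : ∀ n : ℕ, ∃ b ∈ S n, dist a b < Metric.infDist a (S n) + 1 / ((n : ℝ) + 1) := by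
    intro n
    have : Metric.infDist a (S n) < Metric.infDist a (S n) + 1 / ((n : ℝ) + 1) :=
      lt_add_of_pos_right _ (by positivity)
    exact (Metric.infDist_lt_iff (hS n)).mp this
  choose b hb hbd using h1
  refine ⟨b, hb, ?_⟩
  have h2 : Tendsto (fun n => Metric.infDist a (S n)) atTop (𝓝 0) := by
    rw [Metric.tendsto_atTop]
    intro ε hε
    obtain ⟨n₀, hn₀⟩ := eventually_atTop.mp (h ε hε)
    refine ⟨n₀, fun n hn => ?_⟩
    obtain ⟨c, hc, hcd⟩ := hn₀ n hn
    rw [Real.dist_eq, sub_zero, abs_of_nonneg Metric.infDist_nonneg]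
    exact lt_of_le_of_lt (Metric.infDist_le_dist_of_mem hc) (by rwa [dist_comm])
  have h3 : Tendsto (fun n : ℕ => Metric.infDist a (S n) + 1 / ((n : ℝ) + 1)) atTop (𝓝 (0 + 0)) :=
    h2.add tendsto_one_div_add_atTop_nhds_zero_nat
  rw [add_zero] at h3
  rw [tendsto_iff_dist_tendsto_zero]
  refine squeeze_zero (fun n => dist_nonneg) (fun n => ?_) h3
  rw [dist_comm]
  exact (hbd n).le

/-- The limit step: if `x n → t`, `b n → a > 0`, `b n ∈ N n` and `Sat` holds along the sequence,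
then it holds in the limit. -/
theorem limit_step {G : Set ℝ} (hG : ∀ x ∈ G, 0 ≤ x) (κ : ℕ → Dat s k r) (hgood : ∀ n, Good G (κ n))
    (hV : ∀ z, ∀ m n, m ≤ n → (κ m).V z ≤ (κ n).V z)
    {δ' : Fin k → ℝ} {D' : Fin s → Fin k → ℝ} {ε' : Fin r → ℝ} {E' : Fin s → Fin r → ℝ}
    (hδ : ∀ j, Tendsto (fun n => (κ n).δ j) atTop (𝓝 (δ' j)))
    (hD : ∀ i j, Tendsto (fun n => (κ n).D i j) atTop (𝓝 (D' i j)))
    (hε : ∀ z, Tendsto (fun n => (κ n).ε z) atTop (𝓝 (ε' z)))
    (hE : ∀ i z, Tendsto (fun n => (κ n).E i z) atTop (𝓝 (E' i z)))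
    {x : ℕ → Fin s → ℝ} {t : Fin s → ℝ} (hx : Tendsto x atTop (𝓝 t)) (hx0 : ∀ n i, 0 ≤ x n i)
    {b : ℕ → Fin k → ℝ} {a : Fin k → ℝ} (hb : Tendsto b atTop (𝓝 a)) (ha : ∀ j, 0 < a j)
    (hsat : ∀ n, (∀ j, 0 < b n j) → Sat (κ n) (x n) (b n)) :
    ∃ w : Fin r → Fin k → ℕ, (∀ z, 0 < Cf ε' E' t z → ∀ n, w z ∈ (κ n).V z) ∧
      1 ≤ ∑ j, a j * X δ' D' t j - ∑ z, Cf ε' E' t z * ∑ j, (w z j : ℝ) * a j := by
  classical
  have hCf := tendsto_Cf hε hE hx
  have hXt := tendsto_X hδ hD hx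
  have hCf0 : ∀ z, 0 ≤ Cf ε' E' t z := fun z =>
    ge_of_tendsto' (hCf z) fun n => Cf_nonneg hG (hgood n) (hx0 n) z
  have hbj : ∀ j, Tendsto (fun n => b n j) atTop (𝓝 (a j)) := fun j => tendsto_pi_nhds.mp hb j
  -- eventually everything is close
  have ev1 : ∀ᶠ n in atTop, ∀ j, a j / 2 < b n j ∧ b n j < a j + 1 := by
    rw [eventually_all]
    intro j
    exact ((hbj j).eventually (lt_mem_nhds (by linarith [ha j]))).and
      ((hbj j).eventually (gt_mem_nhds (by linarith)))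
  have ev2 : ∀ᶠ n in atTop, ∀ z, 0 < Cf ε' E' t z →
      Cf ε' E' t z / 2 < Cf (κ n).ε (κ n).E (x n) z := by
    rw [eventually_all]
    intro z
    by_cases hz : 0 < Cf ε' E' t z
    · exact ((hCf z).eventually (lt_mem_nhds (by linarith))).mono fun n hn _ => hn
    · exact Eventually.of_forall fun n h => absurd h hz
  -- the witnesses
  have hwit : ∀ n, ∃ u : Fin r → Fin k → ℕ, (∀ j, 0 < b n j) →
      (∀ z, u z ∈ (κ n).V z) ∧ 1 ≤ Val (κ n) (x n) (b n) u := by
    intro n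
    by_cases h : ∀ j, 0 < b n j
    · obtain ⟨u, hu⟩ := hsat n h
      exact ⟨u, fun _ => hu⟩
    · exact ⟨fun _ _ => 0, fun h' => absurd h' h⟩
  choose u hu using hwit
  set w : ℕ → Fin r → Fin k → ℕ := fun n z => if 0 < Cf ε' E' t z then u n z else 0 with hw
  -- a bound
  set S := ∑ j, (a j + 1) with hS
  have hS0 : 0 ≤ S := Finset.sum_nonneg fun j _ => by linarith [ha j]
  have hbd : ∃ U : ℕ, ∀ᶠ n in atTop, ∀ z j, w n z j ≤ U := by
    have hU : ∀ z j, ∃ U : ℕ, 0 < Cf ε' E' t z → S / (Cf ε' E' t z / 2 * (a j / 2)) ≤ U := fun z j =>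
      ⟨⌈S / (Cf ε' E' t z / 2 * (a j / 2))⌉₊, fun _ => Nat.le_ceil _⟩
    choose U hU using hU
    refine ⟨∑ z, ∑ j, U z j, ?_⟩
    filter_upwards [ev1, ev2] with n h1 h2 z j
    rw [hw]
    simp only
    split_ifs with hz
    · have hbpos : ∀ j, 0 < b n j := fun j => by linarith [(h1 j).1, ha j]
      have h3 := (hu n hbpos).2
      rw [Val] at h3
      have h4 : ∑ j, b n j * X (κ n).δ (κ n).D (x n) j ≤ S := by
        refine Finset.sum_le_sum fun j _ => ?_
        calc b n j * X (κ n).δ (κ n).D (x n) j ≤ b n j * 1 :=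
              mul_le_mul_of_nonneg_left (X_le hG (hgood n) (hx0 n) j) (hbpos j).le
          _ ≤ a j + 1 := by linarith [(h1 j).2]
      have h5 : ∀ z, 0 ≤ Cf (κ n).ε (κ n).E (x n) z * ∑ j, (u n z j : ℝ) * b n j := fun z =>
        mul_nonneg (Cf_nonneg hG (hgood n) (hx0 n) z)
          (Finset.sum_nonneg fun j _ => mul_nonneg (by positivity) (hbpos j).le)
      have h6 : Cf (κ n).ε (κ n).E (x n) z * ∑ j, (u n z j : ℝ) * b n j ≤ S := by
        have := Finset.single_le_sum (f := fun z => Cf (κ n).ε (κ n).E (x n) z *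
          ∑ j, (u n z j : ℝ) * b n j) (fun z _ => h5 z) (Finset.mem_univ z)
        linarith
      have h7 : (u n z j : ℝ) * b n j ≤ ∑ j, (u n z j : ℝ) * b n j :=
        Finset.single_le_sum (f := fun j => (u n z j : ℝ) * b n j)
          (fun j _ => mul_nonneg (by positivity) (hbpos j).le) (Finset.mem_univ j)
      have h8 : (u n z j : ℝ) ≤ S / (Cf ε' E' t z / 2 * (a j / 2)) := by
        rw [le_div_iff₀ (mul_pos (by linarith) (by linarith [ha j]))]
        have h9 : (u n z j : ℝ) * (a j / 2) ≤ (u n z j : ℝ) * b n j :=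
          mul_le_mul_of_nonneg_left (h1 j).1.le (by positivity)
        calc (u n z j : ℝ) * (Cf ε' E' t z / 2 * (a j / 2))
            = Cf ε' E' t z / 2 * ((u n z j : ℝ) * (a j / 2)) := by ring
          _ ≤ Cf (κ n).ε (κ n).E (x n) z * ∑ j, (u n z j : ℝ) * b n j :=
              mul_le_mul (h2 z hz).le (h9.trans h7)
                (mul_nonneg (by positivity) (by linarith [ha j])) (by linarith [h2 z hz])
          _ ≤ S := h6
      have h10 : (u n z j : ℝ) ≤ U z j := h8.trans (hU z j hz)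
      have h11 : u n z j ≤ U z j := by exact_mod_cast h10
      refine h11.trans ?_
      exact (Finset.single_le_sum (f := fun j => U z j) (fun j _ => Nat.zero_le _)
        (Finset.mem_univ j)).trans (Finset.single_le_sum (f := fun z => ∑ j, U z j)
        (fun z _ => Nat.zero_le _) (Finset.mem_univ z))
    · simp
  obtain ⟨U, hU⟩ := hbd
  -- pigeonhole
  have hpig : ∃ w₀ : Fin r → Fin k → ℕ, ∃ᶠ n in atTop, w n = w₀ := by
    by_contra hcon
    push Not at hcon
    have hfinset : ∀ᶠ n in atTop, ∀ w₀ ∈ (Fintype.piFinset (fun _ : Fin r =>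
        Fintype.piFinset (fun _ : Fin k => range (U + 1)))), w n ≠ w₀ := by
      rw [eventually_all_finset]
      intro w₀ _
      exact hcon w₀
    obtain ⟨n, hn1, hn2⟩ := (hfinset.and hU).exists
    refine hn1 (w n) ?_ rfl
    refine Fintype.mem_piFinset.mpr fun z => Fintype.mem_piFinset.mpr fun j => ?_
    exact Finset.mem_range.mpr (Nat.lt_succ_of_le (hn2 z j))
  obtain ⟨w₀, hw₀⟩ := hpig
  refine ⟨w₀, ?_, ?_⟩
  · intro z hz n
    obtain ⟨m, ⟨hm1, hm2⟩, hm3⟩ := ((hw₀.and_eventually ev1).and_eventually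
      (eventually_ge_atTop n)).exists
    have hbpos : ∀ j, 0 < b m j := fun j => by linarith [(hm2 j).1, ha j]
    have h1 := (hu m hbpos).1 z
    have h2 : w₀ z = u m z := by
      rw [← hm1, hw]
      simp only
      rw [if_pos hz]
    rw [h2]
    exact hV z n m hm3 h1
  · -- pass to the limit
    have hlim : Tendsto (fun n => ∑ j, b n j * X (κ n).δ (κ n).D (x n) j -
        ∑ z, Cf (κ n).ε (κ n).E (x n) z * ∑ j, (w₀ z j : ℝ) * b n j) atTop
        (𝓝 (∑ j, a j * X δ' D' t j - ∑ z, Cf ε' E' t z * ∑ j, (w₀ z j : ℝ) * a j)) := by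
      refine (tendsto_finsetSum _ fun j _ => (hbj j).mul (hXt j)).sub
        (tendsto_finsetSum _ fun z _ => (hCf z).mul (tendsto_finsetSum _ fun j _ => ?_))
      exact tendsto_const_nhds.mul (hbj j)
    refine ge_of_tendsto_of_frequently hlim ?_
    refine (hw₀.and_eventually ev1).mono ?_
    rintro n ⟨hn1, hn2⟩
    have hbpos : ∀ j, 0 < b n j := fun j => by linarith [(hn2 j).1, ha j]
    have h1 := (hu n hbpos).2
    rw [Val] at h1
    have h2 : ∑ z, Cf (κ n).ε (κ n).E (x n) z * ∑ j, (w₀ z j : ℝ) * b n j ≤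
        ∑ z, Cf (κ n).ε (κ n).E (x n) z * ∑ j, (u n z j : ℝ) * b n j := by
      refine Finset.sum_le_sum fun z _ => ?_
      refine mul_le_mul_of_nonneg_left ?_ (Cf_nonneg hG (hgood n) (hx0 n) z)
      refine Finset.sum_le_sum fun j _ => ?_
      refine mul_le_mul_of_nonneg_right ?_ (hbpos j).le
      rw [← hn1, hw]
      simp only
      split_ifs with hz
      · exact le_refl _
      · simp
    linarith

end MPae9b13.Core
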