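import Pool.Agent.Lib.MP_ae9b13_ag.Core2

/-!
# The compactness argument, conclusion
-/

set_option autoImplicit false

namespace MPae9b13.Core

open Finset Filter Topology

variable {s k r : ℕ}

instance upperSet_wqoLE (k : ℕ) : WellQuasiOrderedLE (UpperSet (Fin k → ℕ)) :=
  ⟨Extract.upperSet_wqo k⟩

/-- extraction of a monotone subsequence -/
theorem extract {G : Set ℝ} (hwf : WellFoundedLT G) (κ : ℕ → Dat s k r)
    (hgood : ∀ n, Good G (κ n)) :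
    ∃ g : ℕ ↪o ℕ, (∀ j, Monotone fun n => (κ (g n)).δ j) ∧
      (∀ i j, Monotone fun n => (κ (g n)).D i j) ∧
      (∀ z, Monotone fun n => (κ (g n)).ε z) ∧ (∀ i z, Monotone fun n => (κ (g n)).E i z) ∧
      (∀ z, Monotone fun n => (κ (g n)).V z) := by
  have h := (wellQuasiOrdered_le (α := (Fin k → G) × (Fin s → Fin k → G) × (Fin r → G) ×
    (Fin s → Fin r → G) × (Fin r → UpperSet (Fin k → ℕ))))
  obtain ⟨g, hg⟩ := h.exists_monotone_subseq (fun n =>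
    (fun j => ⟨(κ n).δ j, (hgood n).δ_mem j⟩, fun i j => ⟨(κ n).D i j, (hgood n).D_mem i j⟩,
      fun z => ⟨(κ n).ε z, (hgood n).ε_mem z⟩, fun i z => ⟨(κ n).E i z, (hgood n).E_mem i z⟩,
      (κ n).V))
  refine ⟨g, fun j m n hmn => ?_, fun i j m n hmn => ?_, fun z m n hmn => ?_,
    fun i z m n hmn => ?_, fun z m n hmn => ?_⟩
  · exact (hg m n hmn).1 j
  · exact (hg m n hmn).2.1 i j
  · exact (hg m n hmn).2.2.1 z
  · exact (hg m n hmn).2.2.2.1 i z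
  · exact (hg m n hmn).2.2.2.2 z

theorem mono_conv {f : ℕ → ℝ} (hf : Monotone f) {M : ℝ} (hM : ∀ᶠ n in atTop, f n ≤ M) :
    ∃ l, Tendsto f atTop (𝓝 l) ∧ ∀ n, f n ≤ l := by
  have hb : BddAbove (Set.range f) := by
    refine ⟨M, ?_⟩
    rintro _ ⟨n, rfl⟩
    obtain ⟨m, h1, h2⟩ := (hM.and (eventually_ge_atTop n)).exists
    exact (hf h2).trans h1
  exact ⟨_, tendsto_atTop_ciSup hf hb, fun n => le_ciSup hb n⟩

/-- The core of the argument: limits of points of the regions of a sequence of local data lie in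
the region of one of the data. -/
theorem core {G : Set ℝ} (hG : ∀ x ∈ G, 0 ≤ x) (hwf : WellFoundedLT G) (κ : ℕ → Dat s k r)
    (hgood : ∀ n, Good G (κ n)) (Q : ℕ → Set (Fin s → ℝ)) (hQ : ∀ n, Q n ⊆ C (κ n))
    (hQ0 : ∀ n, ∀ t ∈ Q n, ∀ i, 0 ≤ t i) (L : Set (Fin s → ℝ))
    (hL : ∀ t ∈ L, ∃ x : ℕ → Fin s → ℝ, (∀ n, x n ∈ Q n) ∧ Tendsto x atTop (𝓝 t))
    {t₀ : Fin s → ℝ} (ht₀ : t₀ ∈ L) (hpos : ∀ i, 0 < t₀ i) : ∃ n, L ⊆ C (κ n) := by
  classical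
  obtain ⟨g, hgδ, hgD, hgε, hgE, hgV⟩ := extract hwf κ hgood
  obtain ⟨ψ, hψ, H, hH1, hH2⟩ := Lat.lat_limit (fun n => (κ (g n)).N)
    (fun n => (hgood (g n)).Z_mem) (fun n => (hgood (g n)).fin)
  -- the subsequence
  set φ : ℕ → ℕ := fun n => g (ψ n) with hφ
  have hφm : StrictMono φ := g.strictMono.comp hψ
  have hδm : ∀ j, Monotone fun n => (κ (φ n)).δ j := fun j => (hgδ j).comp hψ.monotone
  have hDm : ∀ i j, Monotone fun n => (κ (φ n)).D i j := fun i j => (hgD i j).comp hψ.monotone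
  have hεm : ∀ z, Monotone fun n => (κ (φ n)).ε z := fun z => (hgε z).comp hψ.monotone
  have hEm : ∀ i z, Monotone fun n => (κ (φ n)).E i z := fun i z => (hgE i z).comp hψ.monotone
  have hVm : ∀ z, ∀ m n, m ≤ n → (κ (φ m)).V z ≤ (κ (φ n)).V z := fun z m n hmn =>
    (hgV z) (hψ.monotone hmn)
  have hL' : ∀ t ∈ L, ∃ x : ℕ → Fin s → ℝ, (∀ n, x n ∈ Q (φ n)) ∧ Tendsto x atTop (𝓝 t) := by
    intro t ht
    obtain ⟨x, hx, hxt⟩ := hL t ht
    exact ⟨fun n => x (φ n), fun n => hx _, hxt.comp hφm.tendsto_atTop⟩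
  -- a positive lower bound for the coordinates of the points near t₀
  obtain ⟨τ, hτ, hτt⟩ : ∃ τ : ℝ, 0 < τ ∧ ∀ i, τ < t₀ i := by
    rcases isEmpty_or_nonempty (Fin s) with h | h
    · exact ⟨1, one_pos, fun i => isEmptyElim i⟩
    · obtain ⟨i₀, hi₀⟩ := Finite.exists_min t₀
      exact ⟨t₀ i₀ / 2, by linarith [hpos i₀], fun i => by linarith [hpos i₀, hi₀ i]⟩
  obtain ⟨x₀, hx₀, hx₀t⟩ := hL' t₀ ht₀
  have hev : ∀ᶠ n in atTop, ∀ i, τ ≤ x₀ n i := by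
    rw [eventually_all]
    intro i
    exact ((tendsto_pi_nhds.mp hx₀t i).eventually (lt_mem_nhds (hτt i))).mono fun n hn => hn.le
  have hbd : ∀ᶠ n in atTop, (∀ j, (κ (φ n)).δ j ≤ 1) ∧ (∀ i j, (κ (φ n)).D i j ≤ 1 / τ) ∧
      (∀ z, (κ (φ n)).ε z ≤ k) ∧ (∀ i z, (κ (φ n)).E i z ≤ k / τ) :=
    hev.mono fun n hn => coef_bound hG hτ (hgood (φ n)) hn (hQ _ (hx₀ n))
  -- limits of the coefficients
  have hδl := fun j => mono_conv (hδm j) (hbd.mono fun n hn => hn.1 j)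
  choose δ' hδ' hδle using hδl
  have hDl := fun i j => mono_conv (hDm i j) (hbd.mono fun n hn => hn.2.1 i j)
  choose D' hD' hDle using hDl
  have hεl := fun z => mono_conv (hεm z) (hbd.mono fun n hn => hn.2.2.1 z)
  choose ε' hε' hεle using hεl
  have hEl := fun i z => mono_conv (hEm i z) (hbd.mono fun n hn => hn.2.2.2 i z)
  choose E' hE' hEle using hEl
  -- comparison
  have hCfle : ∀ n, ∀ t : Fin s → ℝ, (∀ i, 0 ≤ t i) → ∀ z,
      Cf (κ (φ n)).ε (κ (φ n)).E t z ≤ Cf ε' E' t z := by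
    intro n t ht z
    rw [Cf, Cf]
    exact add_le_add (hεle z n) (Finset.sum_le_sum fun i _ =>
      mul_le_mul_of_nonneg_left (hEle i z n) (ht i))
  have hXle : ∀ n, ∀ t : Fin s → ℝ, (∀ i, 0 ≤ t i) → ∀ j,
      X δ' D' t j ≤ X (κ (φ n)).δ (κ (φ n)).D t j := by
    intro n t ht j
    rw [X, X]
    have h1 := hδle j n
    have h2 : ∑ i, t i * (κ (φ n)).D i j ≤ ∑ i, t i * D' i j :=
      Finset.sum_le_sum fun i _ => mul_le_mul_of_nonneg_left (hDle i j n) (ht i)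
    linarith
  -- nonemptiness of the intersection of the V
  have hCf0 : ∀ z, 0 < Cf ε' E' t₀ z := by
    intro z
    refine lt_of_lt_of_le ?_ (hCfle 0 t₀ (fun i => (hpos i).le) z)
    have h3 : ∀ i, 0 ≤ t₀ i * (κ (φ 0)).E i z := fun i =>
      mul_nonneg (hpos i).le (hG _ ((hgood (φ 0)).E_mem i z))
    have h4 : 0 ≤ (κ (φ 0)).ε z := hG _ ((hgood (φ 0)).ε_mem z)
    rcases (hgood (φ 0)).nz z with h1 | ⟨i, hi⟩
    · exact add_pos_of_pos_of_nonneg (lt_of_le_of_ne h4 (Ne.symm h1))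
        (Finset.sum_nonneg fun i _ => h3 i)
    · refine add_pos_of_nonneg_of_pos h4 (Finset.sum_pos' (fun i _ => h3 i)
        ⟨i, Finset.mem_univ i, mul_pos (hpos i) ?_⟩)
      exact lt_of_le_of_ne (hG _ ((hgood (φ 0)).E_mem i z)) (Ne.symm hi)
  have hone : ∀ n, (fun _ : Fin k => (1 : ℝ)) ∈ (κ (φ n)).N := by
    intro n
    have := (hgood (φ n)).Z_mem (fun _ => 1)
    have e1 : toR (fun _ : Fin k => (1 : ℤ)) = fun _ => (1 : ℝ) := by
      funext j; simp [toR]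
    rwa [e1] at this
  obtain ⟨w₁, hw₁, -⟩ := limit_step hG (fun n => κ (φ n)) (fun n => hgood (φ n)) hVm hδ' hD' hε' hE'
    hx₀t (fun n i => hQ0 _ _ (hx₀ n) i) (b := fun _ _ => 1) (a := fun _ => 1)
    tendsto_const_nhds (fun _ => one_pos) (fun n h => (hQ _ (hx₀ n)).2 _ (hone n) h)
  have hw₁' : ∀ z n, w₁ z ∈ (κ (φ n)).V z := fun z n => hw₁ z (hCf0 z) n
  refine ⟨φ 0, ?_⟩
  intro t ht
  obtain ⟨x, hx, hxt⟩ := hL' t ht
  have ht0 : ∀ i, 0 ≤ t i := fun i =>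
    ge_of_tendsto' (tendsto_pi_nhds.mp hxt i) fun n => hQ0 _ _ (hx n) i
  have hX0 : ∀ j, 0 ≤ X δ' D' t j := fun j =>
    ge_of_tendsto' (tendsto_X hδ' hD' hxt j) fun n => (hQ _ (hx n)).1 j
  refine ⟨fun j => (hX0 j).trans (hXle 0 t ht0 j), fun a ha hapos => ?_⟩
  -- approximations
  have haH : a ∈ H := hH1 (0 : ℕ) a (by exact ha)
  obtain ⟨b, hb, hbt⟩ := exists_seq (fun n => ((κ (φ n)).N : Set (Fin k → ℝ)))
    (fun n => ⟨0, (κ (φ n)).N.zero_mem⟩) a (by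
      intro ε hε
      refine (hH2 a haH ε hε).mono ?_
      rintro n ⟨b, hb, hba⟩
      refine ⟨b, hb, ?_⟩
      rw [dist_pi_lt_iff hε]
      intro j
      rw [Real.dist_eq]
      exact hba j)
  obtain ⟨w, hw, hval⟩ := limit_step hG (fun n => κ (φ n)) (fun n => hgood (φ n)) hVm hδ' hD' hε' hE'
    hxt (fun n i => hQ0 _ _ (hx n) i) hbt hapos (fun n h => (hQ _ (hx n)).2 _ (hb n) h)
  refine ⟨fun z => if 0 < Cf ε' E' t z then w z else w₁ z, fun z => ?_, ?_⟩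
  · dsimp only
    split_ifs with hz
    · exact hw z hz 0
    · exact hw₁' z 0
  · refine hval.trans ?_
    rw [Val]
    have h1 : ∑ j, a j * X δ' D' t j ≤ ∑ j, a j * X (κ (φ 0)).δ (κ (φ 0)).D t j :=
      Finset.sum_le_sum fun j _ => mul_le_mul_of_nonneg_left (hXle 0 t ht0 j) (hapos j).le
    have h2 : ∑ z, Cf (κ (φ 0)).ε (κ (φ 0)).E t z *
        ∑ j, (((if 0 < Cf ε' E' t z then w z else w₁ z) j : ℕ) : ℝ) * a j ≤
        ∑ z, Cf ε' E' t z * ∑ j, (w z j : ℝ) * a j := by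
      refine Finset.sum_le_sum fun z _ => ?_
      have h3 : 0 ≤ ∑ j, (w z j : ℝ) * a j :=
        Finset.sum_nonneg fun j _ => mul_nonneg (by positivity) (hapos j).le
      have h4 : 0 ≤ Cf (κ (φ 0)).ε (κ (φ 0)).E t z := Cf_nonneg hG (hgood (φ 0)) ht0 z
      by_cases hz : 0 < Cf ε' E' t z
      · simp only [if_pos hz]
        exact mul_le_mul_of_nonneg_right (hCfle 0 t ht0 z) h3
      · have h5 : Cf (κ (φ 0)).ε (κ (φ 0)).E t z = 0 :=
          le_antisymm ((hCfle 0 t ht0 z).trans (not_lt.mp hz)) h4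
        rw [h5, zero_mul]
        exact mul_nonneg (h4.trans (hCfle 0 t ht0 z)) h3
    linarith

end MPae9b13.Core
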