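import Mathlib

/-!
# Toric pairs with nondegenerate components and their canonical threshold polytopes
-/

set_option autoImplicit false

namespace MPae9b13

open Finset MeasureTheory

/-- an integer vector as a real vector -/
def toR {d : ℕ} (v : Fin d → ℤ) : Fin d → ℝ := fun i => (v i : ℝ)

/-- primitive integer vectors -/
def Primitive {d : ℕ} (v : Fin d → ℤ) : Prop := ∀ m : ℤ, (∀ i, m ∣ v i) → IsUnit m

/-- the convex cone spanned by a finite set of integer vectors -/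
def cone {d : ℕ} (σ : Finset (Fin d → ℤ)) : Set (Fin d → ℝ) :=
  {x | ∃ c : (Fin d → ℤ) → ℝ, (∀ v ∈ σ, 0 ≤ c v) ∧ x = ∑ v ∈ σ, c v • toR v}

/-- A fan in `ℤ^d` (a normal toric variety of dimension `d`). A cone is given by the set of its
primitive ray generators. -/
structure Fan (d : ℕ) where
  /-- the primitive generators of the rays -/
  rays : Finset (Fin d → ℤ)
  /-- the cones, each given by its set of ray generators -/
  cones : Finset (Finset (Fin d → ℤ))
  primitive : ∀ v ∈ rays, Primitive v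
  subset : ∀ σ ∈ cones, σ ⊆ rays
  zero_mem : ∅ ∈ cones
  ray_mem : ∀ v ∈ rays, {v} ∈ cones
  pointed : ∀ σ ∈ cones, ∃ u : Fin d → ℝ, ∀ v ∈ σ, 0 < u ⬝ᵥ toR v
  extremal : ∀ σ ∈ cones, ∀ v ∈ σ, toR v ∉ cone (σ.erase v)
  faces : ∀ σ ∈ cones, ∀ u : Fin d → ℝ, (∀ v ∈ σ, 0 ≤ u ⬝ᵥ toR v) →
    ∀ τ : Finset (Fin d → ℤ), (∀ v, v ∈ τ ↔ v ∈ σ ∧ u ⬝ᵥ toR v = 0) → τ ∈ cones
  inter : ∀ σ ∈ cones, ∀ τ ∈ cones, cone σ ∩ cone τ = cone (σ ∩ τ) ∧
    ∃ u : Fin d → ℝ, (∀ v ∈ σ, 0 ≤ u ⬝ᵥ toR v) ∧ ∀ v ∈ σ, u ⬝ᵥ toR v = 0 ↔ v ∈ τ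

/-- the order of vanishing along the toric valuation `w` of a Laurent polynomial with set of
exponents `U`: the minimum of `u · w` for `u ∈ U` -/
noncomputable def ord {d : ℕ} (U : Finset (Fin d → ℤ)) (w : Fin d → ℤ) : ℤ :=
  ⨅ u : U, (u : Fin d → ℤ) ⬝ᵥ w

/-- the general hypersurface with exponents `U` meets the toric divisor of the ray `v`: the face of
`U` in the direction of `v` has at least two elements -/
def MeetsRay {d : ℕ} (U : Finset (Fin d → ℤ)) (v : Fin d → ℤ) : Prop :=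
  ∃ u ∈ U, ∃ u' ∈ U, u ≠ u' ∧ u ⬝ᵥ v = ord U v ∧ u' ⬝ᵥ v = ord U v

/-- the general hypersurfaces with exponents `U` and `U'` meet: some differences of exponents are
linearly independent -/
def Meets {d : ℕ} (U U' : Finset (Fin d → ℤ)) : Prop :=
  ∃ u₁ ∈ U, ∃ u₂ ∈ U, ∃ u₃ ∈ U', ∃ u₄ ∈ U', LinearIndependent ℤ ![u₁ - u₂, u₃ - u₄]

/-- Let `X` be the toric variety of the fan `F`, let `D_v` be the toric prime divisor of the ray `v`
and let `Z_z` be the closure of the zero set in the torus of a general Laurent polynomial with set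
of exponents `U z`. The pair `(X, B)`, `B = ∑ B_v D_v + ∑ C_z Z_z`, is canonical: `K_X + B` is
`ℝ`-Cartier, all coefficients are at most `1`, the sum of the coefficients of two components at
least one of which is not toric is at most `1` if they meet in the expected codimension `2`, and
the discrepancy `ℓ(w) - ∑ C_z ord_w(Z_z) - 1` of every exceptional toric divisor (a primitive
vector `w` of a cone `σ` which is not a ray generator) is nonnegative; `ℓ` is the linear form with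
`ℓ(v) = 1 - B_v + ∑ C_z ord_v(Z_z)` on the ray generators of `σ`. -/
def Canonical {d n : ℕ} (F : Fan d) (U : Fin n → Finset (Fin d → ℤ)) (B : (Fin d → ℤ) → ℝ)
    (C : Fin n → ℝ) : Prop :=
  (∀ v ∈ F.rays, B v ≤ 1) ∧ (∀ z, C z ≤ 1) ∧
    (∀ v ∈ F.rays, ∀ z, MeetsRay (U z) v → B v + C z ≤ 1) ∧
    (∀ z z', z ≠ z' → Meets (U z) (U z') → C z + C z' ≤ 1) ∧
    ∀ σ ∈ F.cones, ∃ ℓ : Fin d → ℝ,
      (∀ v ∈ σ, ℓ ⬝ᵥ toR v = 1 - B v + ∑ z, C z * (ord (U z) v : ℝ)) ∧
      ∀ w : Fin d → ℤ, Primitive w → toR w ∈ cone σ → w ∉ F.rays →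
        0 ≤ ℓ ⬝ᵥ toR w - ∑ z, C z * (ord (U z) w : ℝ) - 1

/-- A tuple `(X, Δ; D_1, …, D_s)` of dimension `d` with coefficients in `Γ`: `X` is the toric
variety of the fan, the divisors `Δ` and `D_i` have the components `D_v` (`v` a ray) with the
coefficients `Δ v`, `D i v` and the components `Z_z` (closures of the zero sets of `n` general
Laurent polynomials with sets of exponents `U z`) with the coefficients `Δ' z`, `D' i z`, all
coefficients are zero or in `Γ`, the divisors `D_i` are `ℝ`-Cartier and the pair `(X, Δ)` is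
canonical. -/
structure Tuple (d s : ℕ) (Γ : Set ℝ) extends Fan d where
  /-- the number of the components which are not toric -/
  n : ℕ
  /-- the sets of exponents -/
  U : Fin n → Finset (Fin d → ℤ)
  card_U : ∀ z, 1 < (U z).card
  /-- the coefficients of `Δ` at the toric components -/
  Δ : (Fin d → ℤ) → ℝ
  /-- the coefficients of `Δ` at the other components -/
  Δ' : Fin n → ℝ
  /-- the coefficients of the `D_i` at the toric components -/
  D : Fin s → (Fin d → ℤ) → ℝ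
  /-- the coefficients of the `D_i` at the other components -/
  D' : Fin s → Fin n → ℝ
  Δ_mem : ∀ v ∈ rays, Δ v = 0 ∨ Δ v ∈ Γ
  Δ'_mem : ∀ z, Δ' z = 0 ∨ Δ' z ∈ Γ
  D_mem : ∀ i, ∀ v ∈ rays, D i v = 0 ∨ D i v ∈ Γ
  D'_mem : ∀ i z, D' i z = 0 ∨ D' i z ∈ Γ
  cartier : ∀ i, ∀ σ ∈ cones, ∃ ℓ : Fin d → ℝ,
    ∀ v ∈ σ, ℓ ⬝ᵥ toR v = D i v - ∑ z, D' i z * (ord (U z) v : ℝ)
  canonical : Canonical toFan U Δ Δ'

/-- the canonical threshold polytope `P(X, Δ; D_1, …, D_s)` -/
def polytope {d s : ℕ} {Γ : Set ℝ} (T : Tuple d s Γ) : Set (Fin s → ℝ) :=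
  {t | (∀ i, 0 ≤ t i) ∧ Canonical T.toFan T.U (fun v => T.Δ v + ∑ i, t i * T.D i v)
    (fun z => T.Δ' z + ∑ i, t i * T.D' i z)}

end MPae9b13
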