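import Pool.Agent.Lib.MP_ae9b13_ag.Defs

/-!
# Limits of lattices containing `ℤ^k`
-/

set_option autoImplicit false

namespace MPae9b13.Lat

open Finset Filter Complex

variable {k : ℕ}

/-- integrality of a real number -/
def IsZ (x : ℝ) : Prop := ∃ c : ℤ, x = c

theorem IsZ.add {x y : ℝ} (hx : IsZ x) (hy : IsZ y) : IsZ (x + y) := by
  obtain ⟨a, rfl⟩ := hx; obtain ⟨b, rfl⟩ := hy; exact ⟨a + b, by push_cast; ring⟩

theorem IsZ.smul {x : ℝ} (hx : IsZ x) (n : ℤ) : IsZ (n * x) := by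
  obtain ⟨a, rfl⟩ := hx; exact ⟨n * a, by push_cast; ring⟩

/-- the annihilator -/
def ann (N : AddSubgroup (Fin k → ℝ)) : Submodule ℤ (Fin k → ℤ) where
  carrier := {m | ∀ a ∈ N, IsZ (∑ j, (m j : ℝ) * a j)}
  zero_mem' := fun a _ => ⟨0, by simp⟩
  add_mem' := by
    intro m m' h h' a ha
    have : ∑ j, ((m + m') j : ℝ) * a j = ∑ j, (m j : ℝ) * a j + ∑ j, (m' j : ℝ) * a j := by
      rw [← Finset.sum_add_distrib]
      refine Finset.sum_congr rfl fun j _ => ?_
      simp [add_mul]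
    have h2 := (h a ha).add (h' a ha)
    rw [← this] at h2
    exact h2
  smul_mem' := by
    intro n m h a ha
    have : ∑ j, ((n • m) j : ℝ) * a j = n * ∑ j, (m j : ℝ) * a j := by
      rw [Finset.mul_sum]
      refine Finset.sum_congr rfl fun j _ => ?_
      simp [mul_assoc]
    have h2 := (h a ha).smul n
    rw [← this] at h2
    exact h2

theorem mem_ann {N : AddSubgroup (Fin k → ℝ)} {m : Fin k → ℤ} :
    m ∈ ann N ↔ ∀ a ∈ N, IsZ (∑ j, (m j : ℝ) * a j) := Iff.rfl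

/-- the character -/
noncomputable def e (x : ℝ) : ℂ := Complex.exp (2 * Real.pi * Complex.I * x)

theorem e_add (x y : ℝ) : e (x + y) = e x * e y := by
  rw [e, e, e, ← Complex.exp_add]; congr 1; push_cast; ring

theorem e_isZ {x : ℝ} (h : IsZ x) : e x = 1 := by
  obtain ⟨c, rfl⟩ := h
  rw [e, Complex.exp_eq_one_iff]
  exact ⟨c, by push_cast; ring⟩

theorem isZ_of_e {x : ℝ} (h : e x = 1) : IsZ x := by
  rw [e, Complex.exp_eq_one_iff] at h
  obtain ⟨n, hn⟩ := h
  refine ⟨n, ?_⟩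
  have hpi : (2 * Real.pi * Complex.I : ℂ) ≠ 0 := by
    simp [Real.pi_ne_zero, Complex.I_ne_zero]
  have h2 : (2 * Real.pi * Complex.I : ℂ) * x = (2 * Real.pi * Complex.I : ℂ) * n := by
    rw [hn]; ring
  have h3 := mul_left_cancel₀ hpi h2
  exact_mod_cast h3

/-- the kernel -/
theorem kernel (K : ℕ) (y : ℝ) : ((Real.cos (Real.pi * y) ^ (2 * K) : ℝ) : ℂ) =
    ∑ i ∈ range (2 * K + 1), (((2 * K).choose i : ℝ) / 4 ^ K : ℝ) * e (((i : ℝ) - K) * y) := by
  have h1 : Complex.cos (Real.pi * y : ℂ) =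
      (Complex.exp (Real.pi * y * Complex.I) + Complex.exp (-(Real.pi * y * Complex.I))) / 2 := by
    rw [Complex.cos]
    ring_nf
  push_cast
  rw [h1, div_pow, add_pow, pow_mul (2 : ℂ) 2 K]
  norm_num
  rw [Finset.sum_div]
  refine Finset.sum_congr rfl fun i hi => ?_
  have hi' : i ≤ 2 * K := Nat.lt_succ_iff.mp (Finset.mem_range.mp hi)
  rw [e, ← Complex.exp_nat_mul, ← Complex.exp_nat_mul, ← Complex.exp_add]
  have : (i : ℂ) * (Real.pi * y * Complex.I) + ((2 * K - i : ℕ) : ℂ) * -(Real.pi * y * Complex.I) =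
      2 * Real.pi * Complex.I * (((i : ℝ) - K) * y : ℝ) := by
    rw [Nat.cast_sub hi']
    push_cast
    ring
  rw [this]
  push_cast
  ring

/-- the representatives of a lattice modulo `ℤ^k` -/
def Reps (N : AddSubgroup (Fin k → ℝ)) : Set (Fin k → ℝ) := {a | a ∈ N ∧ ∀ j, 0 ≤ a j ∧ a j < 1}

theorem reps_finite {N : AddSubgroup (Fin k → ℝ)} {m : ℕ} (hm : 0 < m)
    (h : ∀ a ∈ N, ∃ z : Fin k → ℤ, (m : ℝ) • a = toR z) : (Reps N).Finite := by
  have hf : (Set.pi Set.univ (fun _ : Fin k => Set.Ico (0 : ℤ) m)).Finite :=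
    Set.Finite.pi (fun _ => Set.finite_Ico _ _)
  refine Set.Finite.subset (hf.image (fun z : Fin k → ℤ => ((1 : ℝ) / m) • toR z)) ?_
  rintro a ⟨ha, hb⟩
  obtain ⟨z, hz⟩ := h a ha
  have hm' : (0 : ℝ) < m := by exact_mod_cast hm
  have hz' : ∀ j, (m : ℝ) * a j = z j := fun j => by
    have := congrFun hz j
    simpa [toR] using this
  refine ⟨z, fun j _ => ?_, ?_⟩
  · have h1 := hz' j
    constructor
    · have : (0 : ℝ) ≤ z j := by rw [← h1]; exact mul_nonneg hm'.le (hb j).1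
      exact_mod_cast this
    · have : (z j : ℝ) < m := by
        rw [← h1]
        nlinarith [(hb j).2]
      exact_mod_cast this
  · funext j
    simp only [Pi.smul_apply, toR, smul_eq_mul]
    rw [← hz' j]
    field_simp

/-- the reduction modulo `ℤ^k` -/
noncomputable def red (a : Fin k → ℝ) : Fin k → ℝ := fun j => Int.fract (a j)

theorem red_mem {N : AddSubgroup (Fin k → ℝ)} (hZ : ∀ z : Fin k → ℤ, toR z ∈ N) {a : Fin k → ℝ}
    (ha : a ∈ N) : red a ∈ Reps N := by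
  refine ⟨?_, fun j => ⟨Int.fract_nonneg _, Int.fract_lt_one _⟩⟩
  have : red a = a - toR (fun j => ⌊a j⌋) := by
    funext j
    exact (Int.self_sub_floor (a j)).symm
  rw [this]
  exact N.sub_mem ha (hZ _)

theorem char_sum {N : AddSubgroup (Fin k → ℝ)} (hZ : ∀ z : Fin k → ℤ, toR z ∈ N)
    (R : Finset (Fin k → ℝ)) (hR : ∀ a, a ∈ R ↔ a ∈ Reps N) (m : Fin k → ℤ) (hm : m ∉ ann N) :
    ∑ a ∈ R, e (∑ j, (m j : ℝ) * a j) = 0 := by
  have hm' : ∃ b ∈ N, ¬ IsZ (∑ j, (m j : ℝ) * b j) := by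
    by_contra hcon
    push Not at hcon
    exact hm hcon
  obtain ⟨b, hb, hnb⟩ := hm'
  have key : ∀ a : Fin k → ℝ, e (∑ j, (m j : ℝ) * red (a + b) j) =
      e (∑ j, (m j : ℝ) * b j) * e (∑ j, (m j : ℝ) * a j) := by
    intro a
    have h1 : ∑ j, (m j : ℝ) * b j + ∑ j, (m j : ℝ) * a j =
        ∑ j, (m j : ℝ) * red (a + b) j + ∑ j, (m j : ℝ) * ⌊(a + b) j⌋ := by
      rw [← Finset.sum_add_distrib, ← Finset.sum_add_distrib]
      refine Finset.sum_congr rfl fun j _ => ?_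
      have : (a + b) j = red (a + b) j + ⌊(a + b) j⌋ := by
        simp only [red]
        exact (Int.fract_add_floor _).symm
      have h2 : b j + a j = red (a + b) j + ⌊(a + b) j⌋ := by
        rw [← this, Pi.add_apply]; ring
      rw [← mul_add, ← mul_add, h2]
    have h2 : IsZ (∑ j, (m j : ℝ) * ⌊(a + b) j⌋) :=
      ⟨∑ j, m j * ⌊(a + b) j⌋, by push_cast; rfl⟩
    rw [← e_add, h1, e_add, e_isZ h2, mul_one]
  have hbij : ∑ a ∈ R, e (∑ j, (m j : ℝ) * a j) = ∑ a ∈ R, e (∑ j, (m j : ℝ) * red (a + b) j) := by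
    symm
    refine Finset.sum_nbij' (fun a => red (a + b)) (fun a => red (a - b)) ?_ ?_ ?_ ?_ ?_
    · intro a ha
      exact (hR _).mpr (red_mem hZ (N.add_mem ((hR _).mp ha).1 hb))
    · intro a ha
      exact (hR _).mpr (red_mem hZ (N.sub_mem ((hR _).mp ha).1 hb))
    · intro a ha
      funext j
      have h1 := ((hR _).mp ha).2 j
      simp only [red, Pi.add_apply, Pi.sub_apply]
      rw [← Int.self_sub_floor (a j + b j)]
      rw [show a j + b j - ((⌊a j + b j⌋ : ℤ) : ℝ) - b j = a j - ((⌊a j + b j⌋ : ℤ) : ℝ) by ring,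
        Int.fract_sub_intCast]
      exact Int.fract_eq_self.mpr h1
    · intro a ha
      funext j
      have h1 := ((hR _).mp ha).2 j
      simp only [red, Pi.add_apply, Pi.sub_apply]
      rw [← Int.self_sub_floor (a j - b j)]
      rw [show a j - b j - ((⌊a j - b j⌋ : ℤ) : ℝ) + b j = a j - ((⌊a j - b j⌋ : ℤ) : ℝ) by ring,
        Int.fract_sub_intCast]
      exact Int.fract_eq_self.mpr h1
    · intro a _
      rfl
  have h3 : ∑ a ∈ R, e (∑ j, (m j : ℝ) * a j) =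
      e (∑ j, (m j : ℝ) * b j) * ∑ a ∈ R, e (∑ j, (m j : ℝ) * a j) := by
    conv_lhs => rw [hbij]
    rw [Finset.mul_sum]
    exact Finset.sum_congr rfl fun a _ => key a
  have h4 : e (∑ j, (m j : ℝ) * b j) ≠ 1 := fun h => hnb (isZ_of_e h)
  have h5 : (e (∑ j, (m j : ℝ) * b j) - 1) * ∑ a ∈ R, e (∑ j, (m j : ℝ) * a j) = 0 := by
    rw [sub_mul, one_mul, ← h3, sub_self]
  exact (mul_eq_zero.mp h5).resolve_left (sub_ne_zero.mpr h4)

/-- the product kernel as a trigonometric polynomial -/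
theorem prod_kernel (K : ℕ) (y : Fin k → ℝ) :
    ((∏ j, Real.cos (Real.pi * y j) ^ (2 * K) : ℝ) : ℂ) =
      ∑ p ∈ Fintype.piFinset (fun _ : Fin k => range (2 * K + 1)),
        ((∏ j, (((2 * K).choose (p j) : ℝ) / 4 ^ K) : ℝ) : ℂ) *
          e (∑ j, (((p j : ℤ) - K : ℤ) : ℝ) * y j) := by
  have he : ∀ (f : Fin k → ℝ), e (∑ j, f j) = ∏ j, e (f j) := by
    intro f
    simp only [e]
    rw [← Complex.exp_sum]
    congr 1
    push_cast
    rw [Finset.mul_sum]
  push_cast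
  have h1 : ∀ j, Complex.cos (Real.pi * y j : ℂ) ^ (2 * K) =
      ∑ i ∈ range (2 * K + 1), ((((2 * K).choose i : ℝ) / 4 ^ K : ℝ) : ℂ) *
        e (((i : ℝ) - K) * y j) := by
    intro j
    have := kernel K (y j)
    push_cast at this
    rw [this]
    push_cast
    rfl
  rw [Finset.prod_congr rfl (fun j _ => h1 j), Finset.prod_univ_sum]
  refine Finset.sum_congr rfl fun p _ => ?_
  rw [Finset.prod_mul_distrib, ← he]
  push_cast
  rfl

theorem central (K : ℕ) : (1 : ℝ) / (2 * K + 1) ≤ ((2 * K).choose K : ℝ) / 4 ^ K := by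
  have h1 : (4 : ℕ) ^ K ≤ (2 * K + 1) * (2 * K).choose K := by
    have h2 : ∑ i ∈ range (2 * K + 1), (2 * K).choose i = 2 ^ (2 * K) := Nat.sum_range_choose (2 * K)
    have h3 : ∑ i ∈ range (2 * K + 1), (2 * K).choose i ≤ ∑ _i ∈ range (2 * K + 1), (2 * K).choose K := by
      refine Finset.sum_le_sum fun i _ => ?_
      have := Nat.choose_le_middle i (2 * K)
      rwa [Nat.mul_div_cancel_left K (by norm_num)] at this
    rw [Finset.sum_const, Finset.card_range, smul_eq_mul, h2, pow_mul] at h3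
    exact h3
  have h4 : (4 : ℝ) ^ K ≤ (2 * K + 1) * (2 * K).choose K := by exact_mod_cast h1
  rw [div_le_div_iff₀ (by positivity) (by positivity)]
  linarith

theorem exists_near {N : AddSubgroup (Fin k → ℝ)} (hZ : ∀ z : Fin k → ℤ, toR z ∈ N)
    (hfin : ∃ m : ℕ, 0 < m ∧ ∀ a ∈ N, ∃ z : Fin k → ℤ, (m : ℝ) • a = toR z)
    {Λ : Submodule ℤ (Fin k → ℤ)} {a : Fin k → ℝ}
    (ha : ∀ m ∈ Λ, IsZ (∑ j, (m j : ℝ) * a j)) {ε : ℝ} (hε : 0 < ε) (hε2 : ε ≤ 1 / 2) {K : ℕ}
    (hK : (Real.cos (Real.pi * ε) ^ 2) ^ K < (1 / (2 * (K : ℝ) + 1)) ^ k)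
    (hΛ : ∀ m : Fin k → ℤ, (∀ j, |m j| ≤ K) → m ∈ ann N → m ∈ Λ) (hΛ2 : Λ ≤ ann N) :
    ∃ b ∈ N, ∀ j, |b j - a j| < ε := by
  classical
  obtain ⟨m₀, hm₀, hm₀'⟩ := hfin
  set R : Finset (Fin k → ℝ) := (reps_finite hm₀ hm₀').toFinset with hRdef
  have hR : ∀ b, b ∈ R ↔ b ∈ Reps N := fun b => by rw [hRdef]; simp
  set F : (Fin k → ℝ) → ℝ := fun b => ∏ j, Real.cos (Real.pi * (b j - a j)) ^ (2 * K) with hF
  set P := Fintype.piFinset (fun _ : Fin k => range (2 * K + 1)) with hP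
  set W : (Fin k → ℕ) → ℝ := fun p => ∏ j, (((2 * K).choose (p j) : ℝ) / 4 ^ K) with hW
  have hW0 : ∀ p, 0 ≤ W p := fun p => Finset.prod_nonneg fun j _ => by positivity
  -- the sum over the representatives
  have hsum : ((∑ b ∈ R, F b : ℝ) : ℂ) = ((∑ p ∈ P, (if (fun j => (p j : ℤ) - K) ∈ Λ then
      W p * (R.card : ℝ) else 0) : ℝ) : ℂ) := by
    push_cast
    have h1 : ∀ b ∈ R, ((F b : ℝ) : ℂ) = ∑ p ∈ P, (W p : ℂ) *
        (e (∑ j, (((p j : ℤ) - K : ℤ) : ℝ) * b j) * e (-(∑ j, (((p j : ℤ) - K : ℤ) : ℝ) * a j))) := by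
      intro b _
      have := prod_kernel K (fun j => b j - a j)
      rw [hF]
      simp only
      rw [this]
      refine Finset.sum_congr rfl fun p _ => ?_
      rw [← e_add]
      congr 2
      rw [← sub_eq_add_neg, ← Finset.sum_sub_distrib]
      exact Finset.sum_congr rfl fun j _ => by ring
    rw [Finset.sum_congr rfl h1, Finset.sum_comm]
    refine Finset.sum_congr rfl fun p hp => ?_
    rw [← Finset.mul_sum, ← Finset.sum_mul]
    have hbd : ∀ j, |(p j : ℤ) - K| ≤ K := by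
      intro j
      have := Fintype.mem_piFinset.mp hp j
      rw [Finset.mem_range] at this
      rw [abs_le]
      constructor <;> omega
    split_ifs with hmem
    · have h2 : ∑ b ∈ R, e (∑ j, (((p j : ℤ) - K : ℤ) : ℝ) * b j) = (R.card : ℂ) := by
        rw [Finset.sum_congr rfl (fun b hb => e_isZ (mem_ann.mp (hΛ2 hmem) b ((hR b).mp hb).1))]
        simp
      have h3 : e (-(∑ j, (((p j : ℤ) - K : ℤ) : ℝ) * a j)) = 1 := by
        apply e_isZ
        obtain ⟨c, hc⟩ := ha _ hmem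
        exact ⟨-c, by rw [hc]; push_cast; ring⟩
      rw [h2, h3]
      push_cast
      ring
    · have h2 : (fun j => (p j : ℤ) - K) ∉ ann N := fun h => hmem (hΛ _ hbd h)
      have h3 := char_sum hZ R hR _ h2
      rw [h3]
      simp
  have hsum' : ∑ b ∈ R, F b = ∑ p ∈ P, (if (fun j => (p j : ℤ) - K) ∈ Λ then
      W p * (R.card : ℝ) else 0) := by exact_mod_cast hsum
  -- lower bound
  have h0R : (0 : Fin k → ℝ) ∈ R := (hR 0).mpr ⟨N.zero_mem, fun j => ⟨le_refl _, one_pos⟩⟩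
  have hcard : (0 : ℝ) < R.card := by exact_mod_cast Finset.card_pos.mpr ⟨0, h0R⟩
  have hp0 : (fun _ : Fin k => K) ∈ P := Fintype.mem_piFinset.mpr fun j => by
    rw [Finset.mem_range]; omega
  have hlow : (1 / (2 * (K : ℝ) + 1)) ^ k * R.card ≤ ∑ b ∈ R, F b := by
    rw [hsum']
    refine le_trans ?_ (Finset.single_le_sum (f := fun p => if (fun j => ((p j : ℕ) : ℤ) - K) ∈ Λ then
      W p * (R.card : ℝ) else 0) (fun p _ => ?_) hp0)
    · have hz : (fun j : Fin k => (((fun _ : Fin k => K) j : ℕ) : ℤ) - K) = 0 := by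
        funext j; simp
      rw [if_pos (by rw [show (fun _ : Fin k => (K : ℤ) - K) = 0 from hz]; exact Λ.zero_mem)]
      apply mul_le_mul_of_nonneg_right _ hcard.le
      rw [hW]
      simp only [Finset.prod_const, Finset.card_univ, Fintype.card_fin]
      exact pow_le_pow_left₀ (by positivity) (central K) k
    · split_ifs
      · exact mul_nonneg (hW0 p) hcard.le
      · exact le_refl _
  have hex : ∃ b ∈ R, (1 / (2 * (K : ℝ) + 1)) ^ k ≤ F b := by
    by_contra hcon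
    push Not at hcon
    have h1 : ∑ b ∈ R, F b < ∑ _b ∈ R, (1 / (2 * (K : ℝ) + 1)) ^ k :=
      Finset.sum_lt_sum_of_nonempty ⟨0, h0R⟩ hcon
    rw [Finset.sum_const, nsmul_eq_mul] at h1
    linarith [mul_comm ((1 / (2 * (K : ℝ) + 1)) ^ k) (R.card : ℝ)]
  obtain ⟨b, hb, hFb⟩ := hex
  have hbN := ((hR b).mp hb).1
  refine ⟨b - toR (fun j => round (b j - a j)), N.sub_mem hbN (hZ _), fun j => ?_⟩
  -- each factor is large
  have hfac : ∀ i, 0 ≤ Real.cos (Real.pi * (b i - a i)) ^ (2 * K) := fun i => by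
    rw [pow_mul]; positivity
  have hfac1 : ∀ i, Real.cos (Real.pi * (b i - a i)) ^ (2 * K) ≤ 1 := fun i => by
    rw [pow_mul]
    exact pow_le_one₀ (sq_nonneg _) (Real.cos_sq_le_one _)
  have h1 : F b ≤ Real.cos (Real.pi * (b j - a j)) ^ (2 * K) := by
    rw [hF]
    simp only
    rw [← Finset.mul_prod_erase _ _ (Finset.mem_univ j)]
    exact mul_le_of_le_one_right (hfac j) (Finset.prod_le_one (fun i _ => hfac i) (fun i _ => hfac1 i))
  have h2 : (Real.cos (Real.pi * ε) ^ 2) ^ K < (Real.cos (Real.pi * (b j - a j)) ^ 2) ^ K := by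
    rw [← pow_mul (Real.cos (Real.pi * (b j - a j)))]
    linarith
  have h3 : Real.cos (Real.pi * ε) ^ 2 < Real.cos (Real.pi * (b j - a j)) ^ 2 :=
    lt_of_pow_lt_pow_left₀ K (sq_nonneg _) h2
  set y := b j - a j - round (b j - a j) with hy
  have hy2 : |y| ≤ 1 / 2 := abs_sub_round _
  have hcy : Real.cos (Real.pi * (b j - a j)) ^ 2 = Real.cos (Real.pi * |y|) ^ 2 := by
    have e1 : Real.pi * (b j - a j) = Real.pi * y + (round (b j - a j) : ℤ) * Real.pi := by
      rw [hy]; ring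
    rw [e1, Real.cos_add_int_mul_pi, mul_pow, ← Real.cos_abs (Real.pi * y), abs_mul,
      abs_of_pos Real.pi_pos]
    have : ((-1 : ℝ) ^ (round (b j - a j))) ^ 2 = 1 := by
      rw [← zpow_natCast, ← zpow_mul, mul_comm, zpow_mul]
      simp
    rw [this, one_mul]
  have hgoal : |y| < ε := by
    by_contra hcon
    push Not at hcon
    have h4 : Real.cos (Real.pi * |y|) ≤ Real.cos (Real.pi * ε) := by
      apply Real.cos_le_cos_of_nonneg_of_le_pi (by positivity)
      · nlinarith [Real.pi_pos]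
      · exact mul_le_mul_of_nonneg_left hcon Real.pi_pos.le
    have h5 : 0 ≤ Real.cos (Real.pi * |y|) := by
      apply Real.cos_nonneg_of_neg_pi_div_two_le_of_le
      · nlinarith [Real.pi_pos, abs_nonneg y]
      · nlinarith [Real.pi_pos]
    have h6 : Real.cos (Real.pi * |y|) ^ 2 ≤ Real.cos (Real.pi * ε) ^ 2 :=
      pow_le_pow_left₀ h5 h4 2
    rw [hcy] at h3
    linarith
  have e2 : (b - toR (fun j => round (b j - a j))) j - a j = y := by
    simp only [Pi.sub_apply, toR, hy]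
    ring
  rw [e2]
  exact hgoal

/-- Lattices containing `ℤ^k` have a convergent subsequence whose members are contained in the
limit. -/
theorem lat_limit (N : ℕ → AddSubgroup (Fin k → ℝ)) (hZ : ∀ n, ∀ z : Fin k → ℤ, toR z ∈ N n)
    (hfin : ∀ n, ∃ m : ℕ, 0 < m ∧ ∀ a ∈ N n, ∃ z : Fin k → ℤ, (m : ℝ) • a = toR z) :
    ∃ ψ : ℕ → ℕ, StrictMono ψ ∧ ∃ H : Set (Fin k → ℝ), (∀ n, ∀ a ∈ N (ψ n), a ∈ H) ∧
      ∀ a ∈ H, ∀ ε : ℝ, 0 < ε → ∀ᶠ n in atTop, ∃ b ∈ N (ψ n), ∀ j, |b j - a j| < ε := by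
  classical
  set 𝓕 : Set (Submodule ℤ (Fin k → ℤ)) := {Λ | ∃ᶠ n in atTop, Λ ≤ ann (N n)} with h𝓕
  have hne : 𝓕.Nonempty := ⟨⊥, by
    rw [h𝓕, Set.mem_ofPred_eq]
    exact Filter.Frequently.of_forall fun n => bot_le⟩
  obtain ⟨Λ, hΛ, hmax⟩ := WellFounded.has_min (wellFounded_gt (α := Submodule ℤ (Fin k → ℤ))) 𝓕 hne
  obtain ⟨ψ, hψ, hψ2⟩ := Filter.extraction_of_frequently_atTop hΛ
  refine ⟨ψ, hψ, {a | ∀ m ∈ Λ, IsZ (∑ j, (m j : ℝ) * a j)}, ?_, ?_⟩
  · intro n a ha m hm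
    exact mem_ann.mp (hψ2 n hm) a ha
  · intro a ha ε hε
    -- eventually the annihilator has only elements of Λ in a given box
    have hev : ∀ m : Fin k → ℤ, m ∉ Λ → ∀ᶠ n in atTop, m ∉ ann (N (ψ n)) := by
      intro m hm
      by_contra hcon
      rw [Filter.not_eventually] at hcon
      have h1 : Λ ⊔ Submodule.span ℤ {m} ∈ 𝓕 := by
        rw [h𝓕, Set.mem_ofPred_eq]
        have h2 : ∃ᶠ n in atTop, Λ ⊔ Submodule.span ℤ {m} ≤ ann (N (ψ n)) := by
          refine hcon.mono fun n hn => ?_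
          rw [not_not] at hn
          exact sup_le (hψ2 n) (Submodule.span_le.mpr (by simpa using hn))
        exact hψ.tendsto_atTop.frequently h2
      refine hmax _ h1 ?_
      refine lt_of_le_of_ne le_sup_left fun heq => hm ?_
      rw [heq]
      exact Submodule.mem_sup_right (Submodule.mem_span_singleton_self m)
    set ε' := min ε (1 / 2) with hε'
    have hε'0 : 0 < ε' := lt_min hε (by norm_num)
    have hc : Real.cos (Real.pi * ε') ^ 2 < 1 := by
      have h1 : 0 < Real.sin (Real.pi * ε') := by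
        apply Real.sin_pos_of_pos_of_lt_pi
        · positivity
        · have : ε' ≤ 1 / 2 := min_le_right _ _
          nlinarith [Real.pi_pos]
      nlinarith [Real.sin_sq_add_cos_sq (Real.pi * ε')]
    have hK : ∃ K : ℕ, (Real.cos (Real.pi * ε') ^ 2) ^ K < (1 / (2 * (K : ℝ) + 1)) ^ k := by
      set c := Real.cos (Real.pi * ε') ^ 2 with hcdef
      have hc0 : 0 ≤ c := sq_nonneg _
      have h1 := tendsto_pow_const_mul_const_pow_of_abs_lt_one k (r := c) (by rwa [abs_of_nonneg hc0])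
      have h2 : ∀ᶠ K : ℕ in atTop, (K : ℝ) ^ k * c ^ K < (1 / 3) ^ k :=
        h1.eventually (gt_mem_nhds (by positivity))
      obtain ⟨K, hK1, hK2⟩ := (h2.and (Filter.eventually_ge_atTop 1)).exists
      refine ⟨K, ?_⟩
      have hK3 : (1 : ℝ) ≤ K := by exact_mod_cast hK2
      have h3 : (2 * (K : ℝ) + 1) ^ k ≤ (3 * K) ^ k := pow_le_pow_left₀ (by positivity) (by linarith) k
      rw [div_pow, one_pow, lt_div_iff₀ (by positivity)]
      calc c ^ K * (2 * (K : ℝ) + 1) ^ k ≤ c ^ K * (3 * K) ^ k :=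
            mul_le_mul_of_nonneg_left h3 (pow_nonneg hc0 K)
        _ = 3 ^ k * ((K : ℝ) ^ k * c ^ K) := by rw [mul_pow]; ring
        _ < 3 ^ k * (1 / 3) ^ k := mul_lt_mul_of_pos_left hK1 (by positivity)
        _ = 1 := by rw [← mul_pow]; norm_num
    obtain ⟨K, hK⟩ := hK
    set Box : Finset (Fin k → ℤ) := Fintype.piFinset (fun _ : Fin k => Finset.Icc (-(K : ℤ)) K) with hBox
    have hall : ∀ᶠ n in atTop, ∀ m ∈ Box, m ∉ Λ → m ∉ ann (N (ψ n)) := by
      rw [Filter.eventually_all_finset]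
      intro m _
      by_cases hm : m ∈ Λ
      · exact Filter.Eventually.of_forall fun n h => absurd hm h
      · exact (hev m hm).mono fun n hn _ => hn
    refine hall.mono fun n hn => ?_
    obtain ⟨b, hb, hb2⟩ := exists_near (hZ (ψ n)) (hfin (ψ n)) ha hε'0 (min_le_right _ _) hK
      (fun m hm1 hm2 => by
        by_contra h
        exact hn m (Fintype.mem_piFinset.mpr fun j => Finset.mem_Icc.mpr (abs_le.mp (hm1 j))) h hm2)
      (hψ2 n)
    exact ⟨b, hb, fun j => lt_of_lt_of_le (hb2 j) (min_le_left _ _)⟩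

end MPae9b13.Lat
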