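import Pool.Agent.Lib.MP_ae9b13_ag.Cone
import Pool.Agent.Lib.MP_ae9b13_ag.Core

/-!
# Reduction of the canonical threshold polytopes to local data
-/

set_option autoImplicit false

namespace MPae9b13

open Finset

variable {d s k : ℕ}

theorem mem_cone {σ : Finset (Fin d → ℤ)} {v : Fin d → ℤ} (hv : v ∈ σ) : toR v ∈ cone σ := by
  classical
  refine ⟨fun w => if w = v then 1 else 0, fun w _ => by dsimp only; split_ifs <;> norm_num, ?_⟩
  simp only [ite_smul, one_smul, zero_smul]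
  rw [Finset.sum_ite_eq' σ v (fun w => toR w), if_pos hv]

theorem cone_add {σ : Finset (Fin d → ℤ)} {x y : Fin d → ℝ} (hx : x ∈ cone σ) (hy : y ∈ cone σ) :
    x + y ∈ cone σ := by
  obtain ⟨a, ha, rfl⟩ := hx
  obtain ⟨b, hb, rfl⟩ := hy
  refine ⟨fun v => a v + b v, fun v hv => add_nonneg (ha v hv) (hb v hv), ?_⟩
  simp only [add_smul, Finset.sum_add_distrib]

theorem cone_smul {σ : Finset (Fin d → ℤ)} {x : Fin d → ℝ} (hx : x ∈ cone σ) {c : ℝ}
    (hc : 0 ≤ c) : c • x ∈ cone σ := by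
  obtain ⟨a, ha, rfl⟩ := hx
  refine ⟨fun v => c * a v, fun v hv => mul_nonneg hc (ha v hv), ?_⟩
  simp only [Finset.smul_sum, smul_smul]

theorem zero_mem_cone (σ : Finset (Fin d → ℤ)) : (0 : Fin d → ℝ) ∈ cone σ :=
  ⟨fun _ => 0, fun _ _ => le_refl _, by simp⟩

theorem cone_sum {σ : Finset (Fin d → ℤ)} {a : Fin k → ℝ} {v : Fin k → Fin d → ℤ}
    (ha : ∀ j, 0 ≤ a j) (hv : ∀ j, v j ∈ σ) : ∑ j, a j • toR (v j) ∈ cone σ := by
  classical
  have : ∀ S : Finset (Fin k), ∑ j ∈ S, a j • toR (v j) ∈ cone σ := by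
    intro S
    induction S using Finset.induction_on with
    | empty => simpa using zero_mem_cone σ
    | insert j S hj ih =>
      rw [Finset.sum_insert hj]
      exact cone_add (cone_smul (mem_cone (hv j)) (ha j)) ih
  exact this _

theorem primitive_ne_zero {w : Fin d → ℤ} (hw : Primitive w) : w ≠ 0 := by
  rintro rfl
  have := hw 2 (fun i => by simp)
  rw [Int.isUnit_iff] at this
  omega

theorem toR_eq_zero {w : Fin d → ℤ} (hw : toR w = 0) : w = 0 := by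
  apply toR_injective
  rw [hw]
  funext i
  simp [toR]

/-- proportional primitive vectors are equal -/
theorem primitive_unique {v w : Fin d → ℤ} (hv : Primitive v) (hw : Primitive w) {a : ℝ}
    (ha : 0 < a) (h : toR w = a • toR v) : w = v := by
  obtain ⟨i, hi⟩ := Function.ne_iff.mp (primitive_ne_zero hv)
  have hi' : (v i : ℝ) ≠ 0 := by exact_mod_cast hi
  have hj : ∀ j, (w j : ℝ) = a * v j := fun j => congrFun h j
  set ρ : ℚ := (w i : ℚ) / v i with hρ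
  have hρa : (ρ : ℝ) = a := by
    rw [hρ]
    push_cast
    rw [hj i]
    field_simp
  have hρpos : 0 < ρ := by
    have : (0 : ℝ) < ρ := by rw [hρa]; exact ha
    exact_mod_cast this
  have hcop : IsCoprime ρ.num (ρ.den : ℤ) := by
    rw [Int.isCoprime_iff_nat_coprime]
    simpa using ρ.reduced
  have hmul : ∀ j, (ρ.den : ℤ) * w j = ρ.num * v j := by
    intro j
    have h1 : ((ρ.den : ℤ) : ℝ) * w j = (ρ.num : ℝ) * v j := by
      rw [hj j, ← hρa]
      have h2 : (ρ : ℝ) = (ρ.num : ℝ) / (ρ.den : ℝ) := by exact_mod_cast (Rat.num_div_den ρ).symm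
      have h3 : (ρ.den : ℝ) ≠ 0 := by exact_mod_cast ρ.den_ne_zero
      rw [h2]
      push_cast
      field_simp
    exact_mod_cast h1
  have h1 : IsUnit ρ.num := hw _ fun j => by
    have : ρ.num ∣ (ρ.den : ℤ) * w j := ⟨v j, hmul j⟩
    exact hcop.dvd_of_dvd_mul_left this
  have h2 : IsUnit (ρ.den : ℤ) := hv _ fun j => by
    have : (ρ.den : ℤ) ∣ ρ.num * v j := ⟨w j, (hmul j).symm⟩
    exact hcop.symm.dvd_of_dvd_mul_left this
  have h3 : ρ.num = 1 := by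
    have := Rat.num_pos.mpr hρpos
    rw [Int.isUnit_iff] at h1
    omega
  have h4 : (ρ.den : ℤ) = 1 := by
    have := ρ.den_pos
    rw [Int.isUnit_iff] at h2
    omega
  funext j
  have := hmul j
  rw [h3, h4, one_mul, one_mul] at this
  exact this

/-- exponents in the coordinates of the rays -/
def expo (U : Finset (Fin d → ℤ)) (v : Fin k → Fin d → ℤ) : UpperSet (Fin k → ℕ) :=
  upperClosure {y | ∃ u ∈ U, ∀ j, (y j : ℤ) = u ⬝ᵥ v j - ord U (v j)}

/-- the deviation of the order from linearity -/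
noncomputable def dev (U : Finset (Fin d → ℤ)) (v : Fin k → Fin d → ℤ) (a : Fin k → ℝ)
    (w : Fin d → ℤ) : ℝ := (ord U w : ℝ) - ∑ j, a j * (ord U (v j) : ℝ)

theorem sum_dot {v : Fin k → Fin d → ℤ} {a : Fin k → ℝ} {w : Fin d → ℤ}
    (hw : ∑ j, a j • toR (v j) = toR w) (u : Fin d → ℤ) :
    ∑ j, a j * ((u ⬝ᵥ v j : ℤ) : ℝ) = ((u ⬝ᵥ w : ℤ) : ℝ) := by
  rw [← toR_dot, ← hw, dotProduct_sum]
  refine Finset.sum_congr rfl fun j _ => ?_
  rw [dotProduct_smul, smul_eq_mul, toR_dot]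

theorem dev_le {U : Finset (Fin d → ℤ)} {v : Fin k → Fin d → ℤ} {a : Fin k → ℝ}
    (ha : ∀ j, 0 ≤ a j) {w : Fin d → ℤ} (hw : ∑ j, a j • toR (v j) = toR w) {y : Fin k → ℕ}
    (hy : y ∈ expo U v) : dev U v a w ≤ ∑ j, (y j : ℝ) * a j := by
  obtain ⟨y₀, ⟨u, hu, hy₀⟩, hle⟩ := mem_upperClosure.mp hy
  have h1 : ∑ j, (y₀ j : ℝ) * a j ≤ ∑ j, (y j : ℝ) * a j :=
    Finset.sum_le_sum fun j _ => mul_le_mul_of_nonneg_right (by exact_mod_cast hle j) (ha j)
  refine le_trans ?_ h1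
  have h2 : ∑ j, (y₀ j : ℝ) * a j = ((u ⬝ᵥ w : ℤ) : ℝ) - ∑ j, a j * (ord U (v j) : ℝ) := by
    rw [← sum_dot hw u, ← Finset.sum_sub_distrib]
    refine Finset.sum_congr rfl fun j _ => ?_
    have h3 : ((y₀ j : ℤ) : ℝ) = ((u ⬝ᵥ v j - ord U (v j) : ℤ) : ℝ) := by rw [hy₀ j]
    push_cast at h3
    rw [h3]; ring
  rw [h2, dev]
  have h4 : (ord U w : ℝ) ≤ ((u ⬝ᵥ w : ℤ) : ℝ) := by exact_mod_cast ord_le hu w
  linarith

theorem exists_dev {U : Finset (Fin d → ℤ)} (hU : U.Nonempty) {v : Fin k → Fin d → ℤ}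
    {a : Fin k → ℝ} {w : Fin d → ℤ} (hw : ∑ j, a j • toR (v j) = toR w) :
    ∃ y ∈ expo U v, ∑ j, (y j : ℝ) * a j = dev U v a w := by
  obtain ⟨u, hu, huw⟩ := exists_ord hU w
  have hnn : ∀ j, 0 ≤ u ⬝ᵥ v j - ord U (v j) := fun j => sub_nonneg.mpr (ord_le hu _)
  refine ⟨fun j => (u ⬝ᵥ v j - ord U (v j)).toNat, subset_upperClosure
    ⟨u, hu, fun j => Int.toNat_of_nonneg (hnn j)⟩, ?_⟩
  rw [dev, ← huw, ← sum_dot hw u, ← Finset.sum_sub_distrib]
  refine Finset.sum_congr rfl fun j _ => ?_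
  have h1 : (((u ⬝ᵥ v j - ord U (v j)).toNat : ℕ) : ℝ) =
      (((u ⬝ᵥ v j - ord U (v j)) : ℤ) : ℝ) := by
    rw [← Int.cast_natCast, Int.toNat_of_nonneg (hnn j)]
  rw [h1]
  push_cast
  ring

theorem dev_nonneg {U : Finset (Fin d → ℤ)} (hU : U.Nonempty) {v : Fin k → Fin d → ℤ}
    {a : Fin k → ℝ} (ha : ∀ j, 0 ≤ a j) {w : Fin d → ℤ}
    (hw : ∑ j, a j • toR (v j) = toR w) : 0 ≤ dev U v a w := by
  obtain ⟨y, -, hy⟩ := exists_dev hU hw
  rw [← hy]
  exact Finset.sum_nonneg fun j _ => mul_nonneg (by positivity) (ha j)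

theorem dev_eq_zero {U : Finset (Fin d → ℤ)} (hU : U.Nonempty) {v : Fin k → Fin d → ℤ}
    {a : Fin k → ℝ} (ha : ∀ j, 0 ≤ a j) {w : Fin d → ℤ}
    (hw : ∑ j, a j • toR (v j) = toR w) (h0 : (0 : Fin k → ℕ) ∈ expo U v) :
    dev U v a w = 0 := by
  refine le_antisymm ?_ (dev_nonneg hU ha hw)
  have := dev_le ha hw h0
  simpa using this

variable {Γ : Set ℝ}

open Classical in
/-- the relevant further components -/
noncomputable def rel (T : Tuple d s Γ) (v : Fin k → Fin d → ℤ) : Finset (Fin T.n) :=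
  Finset.univ.filter fun z => (0 : Fin k → ℕ) ∉ expo (T.U z) v ∧ (T.Δ' z ≠ 0 ∨ ∃ i, T.D' i z ≠ 0)

theorem mem_rel {T : Tuple d s Γ} {v : Fin k → Fin d → ℤ} {z : Fin T.n} : z ∈ rel T v ↔
    (0 : Fin k → ℕ) ∉ expo (T.U z) v ∧ (T.Δ' z ≠ 0 ∨ ∃ i, T.D' i z ≠ 0) := by
  simp only [rel, Finset.mem_filter, Finset.mem_univ, true_and]

/-- the enumeration of the relevant components -/
noncomputable def enum (T : Tuple d s Γ) (v : Fin k → Fin d → ℤ) :
    Fin (rel T v).card ≃ rel T v := (rel T v).equivFin.symm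

/-- the lattice -/
def latt (v : Fin k → Fin d → ℤ) : AddSubgroup (Fin k → ℝ) where
  carrier := {a | ∃ w : Fin d → ℤ, ∑ j, a j • toR (v j) = toR w}
  add_mem' := by
    rintro a b ⟨w, hw⟩ ⟨w', hw'⟩
    refine ⟨w + w', ?_⟩
    simp only [Pi.add_apply, add_smul, Finset.sum_add_distrib, hw, hw']
    funext i; simp [toR]
  zero_mem' := ⟨0, by funext i; simp [toR]⟩
  neg_mem' := by
    rintro a ⟨w, hw⟩
    refine ⟨-w, ?_⟩
    simp only [Pi.neg_apply, neg_smul, Finset.sum_neg_distrib, hw]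
    funext i; simp [toR]

/-- the local data -/
noncomputable def dat (T : Tuple d s Γ) (v : Fin k → Fin d → ℤ) :
    Core.Dat s k (rel T v).card where
  δ := fun j => T.Δ (v j)
  D := fun i j => T.D i (v j)
  N := latt v
  ε := fun ρ => T.Δ' (enum T v ρ)
  E := fun i ρ => T.D' i (enum T v ρ)
  V := fun ρ => expo (T.U (enum T v ρ)) v

theorem U_ne (T : Tuple d s Γ) (z : Fin T.n) : (T.U z).Nonempty :=
  Finset.card_pos.mp (lt_trans one_pos (T.card_U z))

theorem good_dat (T : Tuple d s Γ) {v : Fin k → Fin d → ℤ} (hv : ∀ j, v j ∈ T.rays)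
    (hli : LinearIndependent ℝ fun j => toR (v j)) : Core.Good (insert 0 Γ) (dat T v) where
  δ_mem := fun j => T.Δ_mem _ (hv j)
  D_mem := fun i j => T.D_mem i _ (hv j)
  ε_mem := fun ρ => T.Δ'_mem _
  E_mem := fun i ρ => T.D'_mem i _
  Z_mem := by
    intro z
    refine ⟨∑ j, z j • v j, ?_⟩
    funext i
    simp [toR, Finset.sum_apply]
  fin := by
    obtain ⟨m, hm, h⟩ := exponent v hli
    exact ⟨m, hm, fun a ha => h a ha⟩
  V_ne := fun ρ => (mem_rel.mp (enum T v ρ).2).1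
  nz := fun ρ => (mem_rel.mp (enum T v ρ).2).2

/-- the value of the discrepancy in terms of the local data -/
theorem value (T : Tuple d s Γ) (v : Fin k → Fin d → ℤ) (t : Fin s → ℝ) {a : Fin k → ℝ}
    (ha : ∀ j, 0 ≤ a j) {w : Fin d → ℤ} (hw : ∑ j, a j • toR (v j) = toR w) {ℓ : Fin d → ℝ}
    (hℓ : ∀ j, ℓ ⬝ᵥ toR (v j) = 1 - (T.Δ (v j) + ∑ i, t i * T.D i (v j)) +
      ∑ z, (T.Δ' z + ∑ i, t i * T.D' i z) * (ord (T.U z) (v j) : ℝ)) :
    ℓ ⬝ᵥ toR w - ∑ z, (T.Δ' z + ∑ i, t i * T.D' i z) * (ord (T.U z) w : ℝ) =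
      ∑ j, a j * Core.X (dat T v).δ (dat T v).D t j -
      ∑ ρ, Core.Cf (dat T v).ε (dat T v).E t ρ * dev (T.U (enum T v ρ)) v a w := by
  classical
  set Cz : Fin T.n → ℝ := fun z => T.Δ' z + ∑ i, t i * T.D' i z with hC
  have h1 : ℓ ⬝ᵥ toR w = ∑ j, a j * Core.X (dat T v).δ (dat T v).D t j +
      ∑ z, Cz z * ∑ j, a j * (ord (T.U z) (v j) : ℝ) := by
    rw [← hw, dotProduct_sum]
    have h2 : ∑ z, Cz z * ∑ j, a j * (ord (T.U z) (v j) : ℝ) =
        ∑ j, a j * ∑ z, Cz z * (ord (T.U z) (v j) : ℝ) := by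
      simp only [Finset.mul_sum]
      rw [Finset.sum_comm]
      refine Finset.sum_congr rfl fun j _ => Finset.sum_congr rfl fun z _ => by ring
    rw [h2, ← Finset.sum_add_distrib]
    refine Finset.sum_congr rfl fun j _ => ?_
    rw [dotProduct_smul, smul_eq_mul, hℓ j, ← mul_add]
    congr 1
    rw [Core.X]
    change _ = 1 - T.Δ (v j) - ∑ i, t i * T.D i (v j) + _
    ring
  have h3 : ∑ z, Cz z * (ord (T.U z) w : ℝ) =
      ∑ z, Cz z * ∑ j, a j * (ord (T.U z) (v j) : ℝ) + ∑ z, Cz z * dev (T.U z) v a w := by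
    rw [← Finset.sum_add_distrib]
    refine Finset.sum_congr rfl fun z _ => ?_
    rw [dev]; ring
  have h4 : ∑ z, Cz z * dev (T.U z) v a w =
      ∑ ρ, Core.Cf (dat T v).ε (dat T v).E t ρ * dev (T.U (enum T v ρ)) v a w := by
    have h5 : ∑ z, Cz z * dev (T.U z) v a w = ∑ z ∈ rel T v, Cz z * dev (T.U z) v a w := by
      symm
      refine Finset.sum_subset (Finset.subset_univ _) fun z _ hz => ?_
      have h6 := fun h => hz (mem_rel.mpr h)
      by_cases h7 : (0 : Fin k → ℕ) ∈ expo (T.U z) v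
      · rw [dev_eq_zero (U_ne T z) ha hw h7, mul_zero]
      · have h8 : ¬ (T.Δ' z ≠ 0 ∨ ∃ i, T.D' i z ≠ 0) := fun h => h6 ⟨h7, h⟩
        push Not at h8
        have h9 : Cz z = 0 := by
          rw [hC]
          simp only [h8.1, h8.2, mul_zero, Finset.sum_const_zero, add_zero]
        rw [h9, zero_mul]
    rw [h5, ← Finset.sum_coe_sort, ← (enum T v).sum_comp]
    rfl
  rw [h1, h3, h4]
  ring

end MPae9b13
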