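import Pool.Agent.Lib.MP_ae9b13_ag.Reduce
import Pool.Agent.Lib.MP_ae9b13_ag.Assemble

/-!
# The canonical threshold polytopes are admissible
-/

set_option autoImplicit false

namespace MPae9b13

open Finset
open scoped Pointwise

variable {d s k : ℕ} {Γ : Set ℝ}

/-- the primitive vector below a positive combination of rays of a cone is not a ray -/
theorem not_mem_rays (F : Fan d) {σ : Finset (Fin d → ℤ)} (hσ : σ ∈ F.cones)
    {v : Fin k → Fin d → ℤ} (hv : ∀ j, v j ∈ σ) (hli : LinearIndependent ℝ fun j => toR (v j))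
    (hk : 2 ≤ k) {a : Fin k → ℝ} (ha : ∀ j, 0 < a j) {w : Fin d → ℤ} (hw : Primitive w)
    (h : ∑ j, a j • toR (v j) = toR w) : w ∉ F.rays := by
  classical
  intro hwr
  have hwσ : toR w ∈ cone σ := h ▸ cone_sum (fun j => (ha j).le) hv
  have h1 := (F.inter σ hσ {w} (F.ray_mem w hwr)).1
  have h2 : toR w ∈ cone (σ ∩ {w}) := by
    rw [← h1]
    exact ⟨hwσ, mem_cone (Finset.mem_singleton_self w)⟩
  have hwmem : w ∈ σ := by
    by_contra hcon
    rw [Finset.inter_singleton_of_notMem hcon] at h2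
    obtain ⟨c, -, hc⟩ := h2
    rw [Finset.sum_empty] at hc
    exact primitive_ne_zero hw (toR_eq_zero hc)
  by_cases hj : ∃ j, v j = w
  · obtain ⟨j₀, hj₀⟩ := hj
    have h3 : ∑ j, (a j - if j = j₀ then 1 else 0) • toR (v j) = 0 := by
      simp only [sub_smul, Finset.sum_sub_distrib, h, ite_smul, one_smul, zero_smul]
      rw [Finset.sum_ite_eq' Finset.univ j₀ (fun j => toR (v j)), if_pos (Finset.mem_univ _), hj₀,
        sub_self]
    have h4 := Fintype.linearIndependent_iff.mp hli _ h3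
    obtain ⟨j₁, hj₁⟩ : ∃ j₁ : Fin k, j₁ ≠ j₀ := by
      have : Nontrivial (Fin k) := Fin.nontrivial_iff_two_le.mpr hk
      exact exists_ne j₀
    have h5 := h4 j₁
    rw [if_neg hj₁, sub_zero] at h5
    exact (ha j₁).ne' h5
  · push Not at hj
    refine F.extremal σ hσ w hwmem ?_
    rw [← h]
    exact cone_sum (fun j => (ha j).le) fun j => Finset.mem_erase.mpr ⟨hj j, hv j⟩

/-- the polytope is contained in the regions of the local data -/
theorem polytope_subset (T : Tuple d s Γ) {σ : Finset (Fin d → ℤ)} (hσ : σ ∈ T.cones)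
    {v : Fin k → Fin d → ℤ} (hv : ∀ j, v j ∈ σ) (hli : LinearIndependent ℝ fun j => toR (v j))
    (hk : 2 ≤ k) : polytope T ⊆ Core.C (dat T v) := by
  intro t ht
  obtain ⟨ht0, hB, -, -, -, hdisc⟩ := ht
  refine ⟨fun j => ?_, ?_⟩
  · have := hB (v j) (T.subset σ hσ (hv j))
    rw [Core.X]
    change 0 ≤ 1 - T.Δ (v j) - ∑ i, t i * T.D i (v j)
    linarith
  rintro a ⟨w, hw⟩ ha
  have ha0 : ∀ j, 0 ≤ a j := fun j => (ha j).le
  have hw0 : w ≠ 0 := by
    rintro rfl
    have h1 : ∑ j, a j • toR (v j) = 0 := by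
      rw [hw]; funext i; simp [toR]
    have h2 := Fintype.linearIndependent_iff.mp hli _ h1 ⟨0, by omega⟩
    exact (ha _).ne' h2
  obtain ⟨m, hm, w', hw', rfl⟩ := exists_primitive hw0
  have hmR : (0 : ℝ) < m := by exact_mod_cast hm
  have hm1 : (1 : ℝ) ≤ m := by exact_mod_cast hm
  have htoR : toR (m • w') = (m : ℝ) • toR w' := by
    funext i; simp [toR]
  have hw1 : ∑ j, (a j / m) • toR (v j) = toR w' := by
    have h1 : ∑ j, (a j / m) • toR (v j) = (m : ℝ)⁻¹ • ∑ j, a j • toR (v j) := by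
      rw [Finset.smul_sum]
      refine Finset.sum_congr rfl fun j _ => ?_
      rw [smul_smul]; congr 1; field_simp
    rw [h1, hw, htoR, smul_smul, inv_mul_cancel₀ hmR.ne', one_smul]
  have ha' : ∀ j, 0 < a j / m := fun j => div_pos (ha j) hmR
  have hnr : w' ∉ T.rays := not_mem_rays T.toFan hσ hv hli hk ha' hw' hw1
  have hwσ : toR w' ∈ cone σ := hw1 ▸ cone_sum (fun j => (ha' j).le) hv
  obtain ⟨ℓ, hℓ, hℓw⟩ := hdisc σ hσ
  have h1 := hℓw w' hw' hwσ hnr
  -- homogeneity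
  have h2 : ℓ ⬝ᵥ toR (m • w') - ∑ z, (T.Δ' z + ∑ i, t i * T.D' i z) * (ord (T.U z) (m • w') : ℝ)
      = m * (ℓ ⬝ᵥ toR w' - ∑ z, (T.Δ' z + ∑ i, t i * T.D' i z) * (ord (T.U z) w' : ℝ)) := by
    rw [htoR, dotProduct_smul, smul_eq_mul, mul_sub, Finset.mul_sum]
    congr 1
    refine Finset.sum_congr rfl fun z _ => ?_
    rw [ord_smul (U_ne T z) hm]
    push_cast
    ring
  have h3 : 1 ≤ ℓ ⬝ᵥ toR (m • w') -
      ∑ z, (T.Δ' z + ∑ i, t i * T.D' i z) * (ord (T.U z) (m • w') : ℝ) := by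
    rw [h2]
    nlinarith
  rw [value T v t ha0 hw (fun j => hℓ (v j) (hv j))] at h3
  have h4 := fun ρ => exists_dev (U_ne T (enum T v ρ)) (v := v) hw
  choose y hy hya using h4
  refine ⟨y, hy, ?_⟩
  rw [Core.Val]
  refine h3.trans (le_of_eq ?_)
  congr 1
  refine Finset.sum_congr rfl fun ρ _ => ?_
  rw [hya]

/-- enumeration of a finite set of vectors -/
theorem exists_enum {J : Finset (Fin d → ℤ)} (hJ : LinearIndepOn ℝ toR (J : Set (Fin d → ℤ)))
    (a : (Fin d → ℤ) → ℝ) : ∃ v : Fin J.card → Fin d → ℤ, (∀ j, v j ∈ J) ∧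
      LinearIndependent ℝ (fun j => toR (v j)) ∧
      ∑ j, a (v j) • toR (v j) = ∑ u ∈ J, a u • toR u := by
  set e := J.equivFin.symm with he
  refine ⟨fun j => (e j : Fin d → ℤ), fun j => (e j).2, ?_, ?_⟩
  · exact LinearIndependent.comp hJ (fun j => e j) e.injective
  · rw [← Finset.sum_coe_sort J, ← e.sum_comp]

/-- the converse inclusion at a single vector -/
theorem disc_nonneg (T : Tuple d s Γ) (hΓ : ∀ x ∈ Γ, 0 ≤ x) {t : Fin s → ℝ} (ht : ∀ i, 0 ≤ t i)
    (hK : ∀ k ≤ d, ∀ r, ∀ κ : Core.Dat s k r, Core.Good (insert 0 Γ) κ →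
      polytope T ⊆ Core.C κ → t ∈ Core.C κ) {σ : Finset (Fin d → ℤ)} (hσ : σ ∈ T.cones)
    {ℓ : Fin d → ℝ} (hℓ : ∀ v ∈ σ, ℓ ⬝ᵥ toR v = 1 - (T.Δ v + ∑ i, t i * T.D i v) +
      ∑ z, (T.Δ' z + ∑ i, t i * T.D' i z) * (ord (T.U z) v : ℝ)) {w : Fin d → ℤ}
    (hw : Primitive w) (hwσ : toR w ∈ cone σ) (hwr : w ∉ T.rays) :
    0 ≤ ℓ ⬝ᵥ toR w - ∑ z, (T.Δ' z + ∑ i, t i * T.D' i z) * (ord (T.U z) w : ℝ) - 1 := by
  classical
  obtain ⟨J, hJσ, hJli, a, ha, haw⟩ := caratheodory hwσ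
  obtain ⟨v, hv, hvli, hsum⟩ := exists_enum hJli a
  rw [← haw] at hsum
  have hvσ : ∀ j, v j ∈ σ := fun j => hJσ (hv j)
  have hvr : ∀ j, v j ∈ T.rays := fun j => T.subset σ hσ (hvσ j)
  have hk : 2 ≤ J.card := by
    by_contra hcon
    have h1 : J.card = 0 ∨ J.card = 1 := by omega
    rcases h1 with h1 | h1
    · rw [Finset.card_eq_zero] at h1
      rw [h1, Finset.sum_empty] at haw
      exact primitive_ne_zero hw (toR_eq_zero haw)
    · obtain ⟨u, rfl⟩ := Finset.card_eq_one.mp h1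
      rw [Finset.sum_singleton] at haw
      have hu : u ∈ T.rays := T.subset σ hσ (hJσ (Finset.mem_singleton_self u))
      have := primitive_unique (T.primitive u hu) hw (ha u (Finset.mem_singleton_self u)) haw
      exact hwr (this ▸ hu)
  have hkd : J.card ≤ d := by
    have := hvli.fintype_card_le_finrank
    simpa using this
  have hmem := hK J.card hkd _ (dat T v) (good_dat T hvr hvli) (polytope_subset T hσ hvσ hvli hk)
  obtain ⟨y, hy, hval⟩ := hmem.2 (fun j => a (v j)) ⟨w, hsum⟩ (fun j => ha _ (hv j))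
  have ha0 : ∀ j, 0 ≤ a (v j) := fun j => (ha _ (hv j)).le
  rw [value T v t ha0 hsum (fun j => hℓ (v j) (hvσ j))]
  rw [Core.Val] at hval
  have hG : ∀ x ∈ insert 0 Γ, (0 : ℝ) ≤ x := by
    rintro x (rfl | hx)
    · exact le_refl _
    · exact hΓ x hx
  have h1 : ∑ ρ, Core.Cf (dat T v).ε (dat T v).E t ρ * dev (T.U (enum T v ρ)) v (fun j => a (v j)) w
      ≤ ∑ ρ, Core.Cf (dat T v).ε (dat T v).E t ρ * ∑ j, (y ρ j : ℝ) * a (v j) := by
    refine Finset.sum_le_sum fun ρ _ => ?_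
    exact mul_le_mul_of_nonneg_left (dev_le ha0 hsum (hy ρ))
      (Core.Cf_nonneg hG (good_dat T hvr hvli) ht ρ)
  linarith

/-- linear forms for the points of the orthant -/
theorem exists_form (T : Tuple d s Γ) (t : Fin s → ℝ) {σ : Finset (Fin d → ℤ)}
    (hσ : σ ∈ T.cones) : ∃ ℓ : Fin d → ℝ, ∀ v ∈ σ, ℓ ⬝ᵥ toR v =
      1 - (T.Δ v + ∑ i, t i * T.D i v) +
      ∑ z, (T.Δ' z + ∑ i, t i * T.D' i z) * (ord (T.U z) v : ℝ) := by
  obtain ⟨ℓ₀, hℓ₀, -⟩ := T.canonical.2.2.2.2 σ hσ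
  choose ℓ hℓ using fun i => T.cartier i σ hσ
  refine ⟨ℓ₀ - ∑ i, t i • ℓ i, fun v hv => ?_⟩
  rw [sub_dotProduct, hℓ₀ v hv, sum_dotProduct]
  have h1 : ∑ i, (t i • ℓ i) ⬝ᵥ toR v =
      ∑ i, t i * T.D i v - ∑ z, (∑ i, t i * T.D' i z) * (ord (T.U z) v : ℝ) := by
    have h2 : ∑ z, (∑ i, t i * T.D' i z) * (ord (T.U z) v : ℝ) =
        ∑ i, t i * ∑ z, T.D' i z * (ord (T.U z) v : ℝ) := by
      simp only [Finset.sum_mul, Finset.mul_sum]
      rw [Finset.sum_comm]
      refine Finset.sum_congr rfl fun i _ => Finset.sum_congr rfl fun z _ => by ring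
    rw [h2, ← Finset.sum_sub_distrib]
    refine Finset.sum_congr rfl fun i _ => ?_
    rw [smul_dotProduct, smul_eq_mul, hℓ i v hv]
    ring
  rw [h1]
  simp only [add_mul, Finset.sum_add_distrib]
  ring

/-- canonicity depends only on the coefficients at the rays -/
theorem Canonical.congr {n : ℕ} {F : Fan d} {U : Fin n → Finset (Fin d → ℤ)}
    {B B' : (Fin d → ℤ) → ℝ} {C : Fin n → ℝ} (h : Canonical F U B C)
    (hB : ∀ v ∈ F.rays, B v = B' v) : Canonical F U B' C := by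
  obtain ⟨h1, h2, h3, h4, h5⟩ := h
  refine ⟨fun v hv => hB v hv ▸ h1 v hv, h2, fun v hv z hz => hB v hv ▸ h3 v hv z hz, h4,
    fun σ hσ => ?_⟩
  obtain ⟨ℓ, hℓ, hw⟩ := h5 σ hσ
  exact ⟨ℓ, fun v hv => hB v (F.subset σ hσ hv) ▸ hℓ v hv, hw⟩

/-- The canonical threshold polytopes are admissible. -/
theorem adm (T : Tuple d s Γ) (hΓ : ∀ x ∈ Γ, 0 ≤ x) :
    Core.Adm (insert 0 Γ) d (polytope T) where
  nonneg := fun t ht => ht.1
  sep := by
    intro t ht htn
    by_contra hcon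
    push Not at hcon
    obtain ⟨hA, hK⟩ := hcon
    refine htn ⟨ht, ?_, ?_, ?_, ?_, ?_⟩
    · intro v hv
      have := hA (T.Δ v + 0) (Set.add_mem_add (T.Δ_mem v hv) (Set.mem_insert _ _))
        (fun i => T.D i v + 0) (fun i => Set.add_mem_add (T.D_mem i v hv) (Set.mem_insert _ _))
        (fun x hx => by simpa using hx.2.1 v hv)
      simpa using this
    · intro z
      have := hA (T.Δ' z + 0) (Set.add_mem_add (T.Δ'_mem z) (Set.mem_insert _ _))
        (fun i => T.D' i z + 0) (fun i => Set.add_mem_add (T.D'_mem i z) (Set.mem_insert _ _))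
        (fun x hx => by simpa using hx.2.2.1 z)
      simpa using this
    · intro v hv z hz
      have := hA (T.Δ v + T.Δ' z) (Set.add_mem_add (T.Δ_mem v hv) (T.Δ'_mem z))
        (fun i => T.D i v + T.D' i z) (fun i => Set.add_mem_add (T.D_mem i v hv) (T.D'_mem i z))
        (fun x hx => by
          have := hx.2.2.2.1 v hv z hz
          simp only [mul_add, Finset.sum_add_distrib]
          linarith)
      simp only [mul_add, Finset.sum_add_distrib] at this
      linarith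
    · intro z z' hne hz
      have := hA (T.Δ' z + T.Δ' z') (Set.add_mem_add (T.Δ'_mem z) (T.Δ'_mem z'))
        (fun i => T.D' i z + T.D' i z') (fun i => Set.add_mem_add (T.D'_mem i z) (T.D'_mem i z'))
        (fun x hx => by
          have := hx.2.2.2.2.1 z z' hne hz
          simp only [mul_add, Finset.sum_add_distrib]
          linarith)
      simp only [mul_add, Finset.sum_add_distrib] at this
      linarith
    · intro σ hσ
      obtain ⟨ℓ, hℓ⟩ := exists_form T t hσ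
      exact ⟨ℓ, hℓ, fun w hw hwσ hwr => disc_nonneg T hΓ ht hK hσ hℓ hw hwσ hwr⟩
  bdd := by
    intro i
    by_cases h1 : ∃ v ∈ T.rays, T.D i v ≠ 0
    · obtain ⟨v, hv, hne⟩ := h1
      exact Or.inl ⟨T.Δ v, T.Δ_mem v hv, fun i => T.D i v, fun i => T.D_mem i v hv, hne,
        fun x hx => hx.2.1 v hv⟩
    by_cases h2 : ∃ z, T.D' i z ≠ 0
    · obtain ⟨z, hne⟩ := h2
      exact Or.inl ⟨T.Δ' z, T.Δ'_mem z, fun i => T.D' i z, fun i => T.D'_mem i z, hne,
        fun x hx => hx.2.2.1 z⟩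
    push Not at h1 h2
    refine Or.inr fun t ht c hc => ⟨fun j => ?_, ?_⟩
    · rw [Pi.add_apply]
      refine add_nonneg (ht.1 j) ?_
      rw [Pi.single_apply]
      split_ifs
      · exact hc
      · exact le_refl _
    · have hC : (fun z => T.Δ' z + ∑ j, (t + Pi.single i c : Fin s → ℝ) j * T.D' j z) =
          fun z => T.Δ' z + ∑ j, t j * T.D' j z := by
        funext z
        congr 1
        refine Finset.sum_congr rfl fun j _ => ?_
        rw [Pi.add_apply, Pi.single_apply]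
        split_ifs with hj
        · rw [hj, h2 z, mul_zero, mul_zero]
        · rw [add_zero]
      rw [hC]
      refine ht.2.congr fun v hv => ?_
      congr 1
      refine Finset.sum_congr rfl fun j _ => ?_
      rw [Pi.add_apply, Pi.single_apply]
      split_ifs with hj
      · rw [hj, h1 v hv, mul_zero, mul_zero]
      · rw [add_zero]

end MPae9b13
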